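import Mathlib

/-! Affine groups and Fox rows for words in `G * F_n`. -/

set_option autoImplicit false

namespace Pool.Agent.H76.Ker

open Monoid

universe u v

/-- The affine group `M ⋊ Sˣ`. -/
@[ext] structure Aff (S : Type*) (M : Type*) [CommRing S] [AddCommGroup M] [Module S M] where
  /-- translation part -/
  t : M
  /-- linear part -/
  u : Sˣ

namespace Aff

variable {S M N : Type*} [CommRing S] [AddCommGroup M] [Module S M] [AddCommGroup N] [Module S N]

instance : Mul (Aff S M) := ⟨fun a b => ⟨a.t + a.u • b.t, a.u * b.u⟩⟩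
instance : One (Aff S M) := ⟨⟨0, 1⟩⟩
instance : Inv (Aff S M) := ⟨fun a => ⟨-(a.u⁻¹ • a.t), a.u⁻¹⟩⟩

@[simp] theorem mul_t (a b : Aff S M) : (a * b).t = a.t + a.u • b.t := rfl
@[simp] theorem mul_u (a b : Aff S M) : (a * b).u = a.u * b.u := rfl
@[simp] theorem one_t : (1 : Aff S M).t = 0 := rfl
@[simp] theorem one_u : (1 : Aff S M).u = 1 := rfl
@[simp] theorem inv_t (a : Aff S M) : (a⁻¹).t = -(a.u⁻¹ • a.t) := rfl
@[simp] theorem inv_u (a : Aff S M) : (a⁻¹).u = a.u⁻¹ := rfl

instance : Group (Aff S M) where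
  mul_assoc a b c := by
    ext
    · simp [smul_add, mul_smul, add_assoc]
    · simp [mul_assoc]
  one_mul a := by ext <;> simp
  mul_one a := by ext <;> simp
  inv_mul_cancel a := by ext <;> simp

/-- The linear part as a homomorphism. -/
def lin : Aff S M →* Sˣ where
  toFun a := a.u
  map_one' := rfl
  map_mul' _ _ := rfl

@[simp] theorem lin_apply (a : Aff S M) : lin a = a.u := rfl

/-- Functoriality in the module. -/
def map (f : M →ₗ[S] N) : Aff S M →* Aff S N where
  toFun a := ⟨f a.t, a.u⟩
  map_one' := by ext <;> simp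
  map_mul' a b := by
    ext
    · simp [Units.smul_def]
    · simp

@[simp] theorem map_t (f : M →ₗ[S] N) (a : Aff S M) : (map f a).t = f a.t := rfl
@[simp] theorem map_u (f : M →ₗ[S] N) (a : Aff S M) : (map f a).u = a.u := rfl

/-- Functoriality in the ring, for the free module of rank `n`. -/
def mapRing {S' : Type*} [CommRing S'] (φ : S →+* S') (n : ℕ) :
    Aff S (Fin n → S) →* Aff S' (Fin n → S') where
  toFun a := ⟨fun i => φ (a.t i), Units.map φ a.u⟩
  map_one' := by
    ext
    · simp
    · simp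
  map_mul' a b := by
    ext
    · simp [Units.smul_def]
    · simp

@[simp] theorem mapRing_t {S' : Type*} [CommRing S'] (φ : S →+* S') (n : ℕ)
    (a : Aff S (Fin n → S)) (i : Fin n) : (mapRing φ n a).t i = φ (a.t i) := rfl
@[simp] theorem mapRing_u {S' : Type*} [CommRing S'] (φ : S →+* S') (n : ℕ)
    (a : Aff S (Fin n → S)) : (mapRing φ n a).u = Units.map φ a.u := rfl

theorem list_prod_t (l : List (Aff S M)) (h : ∀ a ∈ l, a.u = 1) :
    l.prod.t = (l.map (fun a => a.t)).sum ∧ l.prod.u = 1 := by
  induction l with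
  | nil => simp
  | cons a l ih =>
    have h1 := h a (List.mem_cons_self)
    have h2 := ih (fun b hb => h b (List.mem_cons_of_mem _ hb))
    simp [h1, h2.1, h2.2]

theorem conj_t (h a : Aff S M) (ha : a.u = 1) : (h * a * h⁻¹).t = h.u • a.t ∧ (h * a * h⁻¹).u = 1 := by
  constructor
  · simp only [mul_t, inv_t, mul_u, ha, mul_one, smul_neg, smul_smul, mul_inv_cancel, one_smul]
    abel
  · simp [ha]

end Aff

section Fox

variable {G : Type u} [Group G] {n : ℕ}

/-- The word group `G * F_n`. -/
abbrev WG (G : Type u) [Group G] (n : ℕ) : Type u := Coprod G (FreeGroup (Fin n))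

/-- The variable `t_i`. -/
abbrev tv (G : Type u) [Group G] {n : ℕ} (i : Fin n) : WG G n := Coprod.inr (FreeGroup.of i)

variable {S : Type*} [CommRing S] {M : Type*} [AddCommGroup M] [Module S M]

/-- Evaluation of words: `g ↦ v g`, `t_i ↦ (m i, u t_i)`. -/
noncomputable def ev (u : WG G n →* Sˣ) (v : G →* Aff S M) (m : Fin n → M) : WG G n →* Aff S M :=
  Coprod.lift v (FreeGroup.lift (fun i => ⟨m i, u (tv G i)⟩))

@[simp] theorem ev_inl (u : WG G n →* Sˣ) (v : G →* Aff S M) (m : Fin n → M) (g : G) :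
    ev u v m (Coprod.inl g) = v g := by simp [ev]

@[simp] theorem ev_tv (u : WG G n →* Sˣ) (v : G →* Aff S M) (m : Fin n → M) (i : Fin n) :
    ev u v m (tv G i) = ⟨m i, u (tv G i)⟩ := by simp [ev]

theorem hom_ext_wg {Q : Type*} [Monoid Q] {f g : WG G n →* Q}
    (h1 : ∀ a : G, f (Coprod.inl a) = g (Coprod.inl a)) (h2 : ∀ i, f (tv G i) = g (tv G i)) :
    f = g := by
  refine Coprod.hom_ext (MonoidHom.ext h1) (FreeGroup.ext_hom _ _ h2)

theorem ev_u (u : WG G n →* Sˣ) (v : G →* Aff S M) (hv : ∀ g, (v g).u = u (Coprod.inl g))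
    (m : Fin n → M) (w : WG G n) : (ev u v m w).u = u w := by
  have : (Aff.lin).comp (ev u v m) = u := by
    refine hom_ext_wg ?_ ?_
    · intro a; simp [hv]
    · intro i; simp
  exact DFunLike.congr_fun this w

/-- The trivial cocycle with linear part `u`. -/
def triv (u : WG G n →* Sˣ) (M : Type*) [AddCommGroup M] [Module S M] : G →* Aff S M where
  toFun g := ⟨0, u (Coprod.inl g)⟩
  map_one' := by ext <;> simp
  map_mul' a b := by ext <;> simp

@[simp] theorem triv_t (u : WG G n →* Sˣ) (g : G) : (triv u M g).t = 0 := rfl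
@[simp] theorem triv_u (u : WG G n →* Sˣ) (g : G) : (triv u M g).u = u (Coprod.inl g) := rfl

/-- Fox rows. -/
noncomputable def fox (u : WG G n →* Sˣ) : WG G n →* Aff S (Fin n → S) :=
  ev u (triv u (Fin n → S)) (fun i => Pi.single i 1)

theorem fox_u (u : WG G n →* Sˣ) (w : WG G n) : (fox u w).u = u w :=
  ev_u u _ (fun _ => rfl) _ w

/-- Linear combination map `(d, c) ↦ Σ d_i m_i + c`. -/
noncomputable def comb (m : Fin n → M) : ((Fin n → S) × M) →ₗ[S] M where
  toFun x := (∑ i, x.1 i • m i) + x.2
  map_add' x y := by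
    simp only [Prod.fst_add, Prod.snd_add, Pi.add_apply, add_smul, Finset.sum_add_distrib]
    abel
  map_smul' r x := by
    simp only [Prod.smul_fst, Prod.smul_snd, Pi.smul_apply, smul_add, Finset.smul_sum, smul_smul,
      smul_eq_mul, RingHom.id_apply]

theorem ev_eq (u : WG G n →* Sˣ) (v : G →* Aff S M) (hv : ∀ g, (v g).u = u (Coprod.inl g))
    (m : Fin n → M) (w : WG G n) :
    (ev u v m w).t = (∑ i, (fox u w).t i • m i) + (ev u v 0 w).t := by
  let v' : G →* Aff S ((Fin n → S) × M) :=
    { toFun := fun g => ⟨(0, (v g).t), (v g).u⟩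
      map_one' := by ext <;> simp
      map_mul' := fun a b => by ext <;> simp }
  let Θ : WG G n →* Aff S ((Fin n → S) × M) := ev u v' (fun i => (Pi.single i 1, 0))
  have h1 : (Aff.map (comb m)).comp Θ = ev u v m := by
    refine hom_ext_wg ?_ ?_
    · intro a
      ext
      · simp [Θ, v', comb]
      · simp [Θ, v']
    · intro i
      ext
      · simp [Θ, comb, Pi.single_apply]
      · simp [Θ]
  have h2 : (Aff.map (LinearMap.fst S (Fin n → S) M)).comp Θ = fox u := by
    refine hom_ext_wg ?_ ?_
    · intro a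
      ext
      · simp [Θ, v', fox]
      · simp [Θ, v', fox, hv]
    · intro i
      ext
      · simp [Θ, fox]
      · simp [Θ, fox]
  have h3 : (Aff.map (LinearMap.snd S (Fin n → S) M)).comp Θ = ev u v 0 := by
    refine hom_ext_wg ?_ ?_
    · intro a
      ext
      · simp [Θ, v']
      · simp [Θ, v']
    · intro i
      ext
      · simp [Θ]
      · simp [Θ]
  have e1 : (Θ w).t.1 = (fox u w).t := by
    have := DFunLike.congr_fun h2 w
    rw [← this]; rfl
  have e2 : (Θ w).t.2 = (ev u v 0 w).t := by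
    have := DFunLike.congr_fun h3 w
    rw [← this]; rfl
  rw [← h1, ← e1, ← e2]
  rfl

/-- Fox rows are natural in the ring. -/
theorem fox_map {S' : Type*} [CommRing S'] (φ : S →+* S') (u : WG G n →* Sˣ) (w : WG G n)
    (i : Fin n) :
    (fox ((Units.map (φ : S →* S')).comp u) w).t i = φ ((fox u w).t i) := by
  have h : (Aff.mapRing φ n).comp (fox u) = fox ((Units.map (φ : S →* S')).comp u) := by
    refine hom_ext_wg ?_ ?_
    · intro a
      ext
      · simp [fox]
      · simp [fox]
    · intro i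
      ext j
      · by_cases h : i = j
        · subst h; simp [fox]
        · simp [fox, Pi.single_apply, Ne.symm h]
      · simp [fox]
  rw [← h]; rfl

/-- The fundamental identity of Fox calculus when `u` is trivial on `G`. -/
theorem fox_fund (u : WG G n →* Sˣ) (hu : ∀ g : G, u (Coprod.inl g) = 1) (w : WG G n) :
    (∑ i, (fox u w).t i * ((u (tv G i) : S) - 1)) = (u w : S) - 1 := by
  have h1 := ev_eq (M := S) u (triv u S) (fun _ => rfl) (fun i => (u (tv G i) : S) - 1) w
  have h2 : ev u (triv u S) (0 : Fin n → S) w = ⟨0, u w⟩ := by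
    let f : WG G n →* Aff S S :=
      { toFun := fun w => ⟨0, u w⟩
        map_one' := by ext <;> simp
        map_mul' := fun a b => by ext <;> simp }
    have : ev u (triv u S) (0 : Fin n → S) = f := by
      refine hom_ext_wg ?_ ?_
      · intro a; ext <;> simp [f]
      · intro i; ext <;> simp [f]
    rw [this]; rfl
  have h3 : ev u (triv u S) (fun i => (u (tv G i) : S) - 1) w = ⟨(u w : S) - 1, u w⟩ := by
    let f : WG G n →* Aff S S :=
      { toFun := fun w => ⟨(u w : S) - 1, u w⟩
        map_one' := by ext <;> simp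
        map_mul' := fun a b => by
          ext
          · simp [Units.smul_def]; ring
          · simp }
    have : ev u (triv u S) (fun i => (u (tv G i) : S) - 1) = f := by
      refine hom_ext_wg ?_ ?_
      · intro a; ext <;> simp [f, hu]
      · intro i; ext <;> simp [f]
    rw [this]; rfl
  rw [h2, h3] at h1
  simp only [smul_eq_mul, add_zero] at h1
  exact h1.symm

/-- Solving a system in the affine group over a field. -/
theorem solve {K : Type*} [Field K] (u : WG G n →* Kˣ) (v : G →* Aff K K)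
    (hv : ∀ g, (v g).u = u (Coprod.inl g)) (w : Fin n → WG G n) (hw : ∀ j, u (w j) = 1)
    (hdet : (Matrix.of (fun j i => (fox u (w j)).t i)).det ≠ 0) :
    ∃ m : Fin n → K, ∀ j, ev u v m (w j) = 1 := by
  let D : Matrix (Fin n) (Fin n) K := Matrix.of (fun j i => (fox u (w j)).t i)
  have hD : IsUnit D.det := isUnit_iff_ne_zero.mpr hdet
  refine ⟨D⁻¹.mulVec (fun j => -(ev u v 0 (w j)).t), fun j => ?_⟩
  ext
  · rw [ev_eq u v hv]
    have h : D.mulVec (D⁻¹.mulVec (fun j => -(ev u v 0 (w j)).t)) = fun j => -(ev u v 0 (w j)).t := by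
      rw [Matrix.mulVec_mulVec, Matrix.mul_nonsing_inv _ hD, Matrix.one_mulVec]
    have h' := congr_fun h j
    simp only [Matrix.mulVec, dotProduct] at h'
    simp only [Aff.one_t, smul_eq_mul]
    have h2 : (∑ i, (fox u (w j)).t i * D⁻¹.mulVec (fun j => -(ev u v 0 (w j)).t) i)
        = -(ev u v 0 (w j)).t := h'
    rw [h2, neg_add_cancel]
  · rw [ev_u u v hv, hw, Aff.one_u]

end Fox

end Pool.Agent.H76.Ker
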