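import Mathlib

/-! Coefficient comparison for `p`-power roots of unity. -/

set_option autoImplicit false

namespace Pool.Agent.H76.Ker

open Polynomial Finset

theorem sum_shift_one {M : Type*} [AddCommGroup M] (p : ℕ) (F : ℤ → M)
    (hF : ∀ i, F (i + p) = F i) :
    ∑ i ∈ range p, F ((i : ℤ) + 1) = ∑ i ∈ range p, F (i : ℤ) := by
  have h1 := Finset.sum_range_succ (fun i : ℕ => F (i : ℤ)) p
  have h2 := Finset.sum_range_succ' (fun i : ℕ => F (i : ℤ)) p
  rw [h1] at h2
  have h3 : F ((p : ℕ) : ℤ) = F ((0 : ℕ) : ℤ) := by
    have := hF 0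
    simpa using this
  rw [h3] at h2
  have h4 := add_right_cancel h2
  rw [h4]
  apply Finset.sum_congr rfl
  intro i _
  push_cast
  rfl

theorem sum_shift {M : Type*} [AddCommGroup M] (p : ℕ) (F : ℤ → M)
    (hF : ∀ i, F (i + p) = F i) (a : ℕ) :
    ∑ i ∈ range p, F ((i : ℤ) + a) = ∑ i ∈ range p, F (i : ℤ) := by
  induction a with
  | zero => simp
  | succ a ih =>
    rw [← ih]
    have := sum_shift_one p (fun i => F (i + a)) (fun i => by
      show F (i + p + a) = F (i + a)
      rw [← hF (i + a)]; congr 1; ring)
    rw [← this]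
    apply Finset.sum_congr rfl
    intro i _
    congr 1
    push_cast
    ring

theorem cyc (p f : ℕ) (hp : p.Prime) (ω : ℂ) (hω : IsPrimitiveRoot ω (p ^ (f + 1)))
    (T : ℕ → ℕ → ℤ)
    (h : ∑ j ∈ range (p ^ f), ∑ i ∈ range p, (T j i : ℂ) * ω ^ (p ^ f * i + j) = 0) :
    ∀ j < p ^ f, ∀ i < p, T j i = T j 0 := by
  have : Fact p.Prime := ⟨hp⟩
  set q := p ^ f with hq
  have hq0 : 0 < q := pow_pos hp.pos _
  set P : ℤ[X] := ∑ j ∈ range q, ∑ i ∈ range p, C (T j i) * X ^ (q * i + j) with hP
  have hPω : aeval ω P = 0 := by
    rw [hP]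
    simp only [map_sum, map_mul, aeval_C, map_pow, aeval_X]
    simpa using h
  have hcoef : ∀ j < q, ∀ i < p, P.coeff (q * i + j) = T j i := by
    intro j hj i hi
    rw [hP]
    simp only [finsetSum_coeff, coeff_C_mul, coeff_X_pow]
    rw [Finset.sum_eq_single j, Finset.sum_eq_single i]
    · simp
    · intro i' _ hne
      have : q * i + j ≠ q * i' + j := by
        intro h'
        have := Nat.eq_of_mul_eq_mul_left hq0 (Nat.add_right_cancel h')
        exact hne this.symm
      rw [if_neg this, mul_zero]
    · intro h'; exact absurd (Finset.mem_range.mpr hi) h'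
    · intro j' hj' hne
      apply Finset.sum_eq_zero
      intro i' _
      have : q * i + j ≠ q * i' + j' := by
        intro h'
        have h1 := congrArg (· % q) h'
        simp only [Nat.mul_add_mod] at h1
        rw [Nat.mod_eq_of_lt hj, Nat.mod_eq_of_lt (Finset.mem_range.mp hj')] at h1
        exact hne h1.symm
      rw [if_neg this, mul_zero]
    · intro h'; exact absurd (Finset.mem_range.mpr hj) h'
  have hdeg : P.natDegree < q * p := by
    have : P.natDegree ≤ q * p - 1 := by
      rw [hP]
      apply natDegree_sum_le_of_forall_le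
      intro j hj
      apply natDegree_sum_le_of_forall_le
      intro i hi
      refine le_trans (natDegree_C_mul_X_pow_le _ _) ?_
      have hj' := Finset.mem_range.mp hj
      have hi' := Finset.mem_range.mp hi
      have : q * i + q ≤ q * p := by
        calc q * i + q = q * (i + 1) := by ring
          _ ≤ q * p := Nat.mul_le_mul_left _ hi'
      omega
    have : 0 < q * p := Nat.mul_pos hq0 hp.pos
    omega
  have hmin : minpoly ℤ ω ∣ P :=
    minpoly.isIntegrallyClosed_dvd (hω.isIntegral (pow_pos hp.pos _)) hPω
  rw [← cyclotomic_eq_minpoly hω (pow_pos hp.pos _), cyclotomic_prime_pow_eq_geom_sum hp] at hmin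
  obtain ⟨g, hg⟩ := hmin
  have hgdeg : P = 0 ∨ g.natDegree < q := by
    by_cases hg0 : g = 0
    · left; rw [hg, hg0, mul_zero]
    · right
      have hc : (cyclotomic (p ^ (f + 1)) ℤ).natDegree = q * (p - 1) := by
        rw [natDegree_cyclotomic, Nat.totient_prime_pow_succ hp]
      rw [← cyclotomic_prime_pow_eq_geom_sum hp] at hg
      have hne : cyclotomic (p ^ (f + 1)) ℤ ≠ 0 := cyclotomic_ne_zero _ _
      have h1 : P.natDegree = q * (p - 1) + g.natDegree := by
        rw [hg, natDegree_mul hne hg0, hc]
      have h2 : q * (p - 1) + q = q * p := by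
        have := hp.pos
        calc q * (p - 1) + q = q * (p - 1 + 1) := by ring
          _ = q * p := by rw [Nat.sub_add_cancel hp.pos]
      omega
  rcases hgdeg with h0 | hgd
  · intro j hj i hi
    rw [← hcoef j hj i hi, ← hcoef j hj 0 hp.pos, h0]
    simp
  · have key : ∀ j < q, ∀ i < p, P.coeff (q * i + j) = g.coeff j := by
      intro j hj i hi
      rw [hg, Finset.sum_mul, finsetSum_coeff, Finset.sum_eq_single i]
      · rw [← pow_mul, mul_comm (X ^ _) g, coeff_mul_X_pow' g, if_pos (by rw [← hq]; omega), ← hq]
        congr 1; omega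
      · intro i' _ hne
        rw [← pow_mul, mul_comm (X ^ _) g, coeff_mul_X_pow' g, ← hq]
        split_ifs with hle
        · apply coeff_eq_zero_of_natDegree_lt
          have : q * i' ≤ q * i + j := hle
          have hlt : i' < i := by
            rcases lt_trichotomy i' i with h' | h' | h'
            · exact h'
            · exact absurd h' hne
            · exfalso
              have : q * (i + 1) ≤ q * i' := Nat.mul_le_mul_left _ h'
              have : q * (i + 1) = q * i + q := by ring
              omega
          have h4 : q * (i' + 1) ≤ q * i := Nat.mul_le_mul_left _ hlt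
          have h5 : q * (i' + 1) = q * i' + q := by ring
          omega
        · rfl
      · intro h'; exact absurd (Finset.mem_range.mpr hi) h'
    intro j hj i hi
    rw [← hcoef j hj i hi, ← hcoef j hj 0 hp.pos, key j hj i hi, key j hj 0 hp.pos]

end Pool.Agent.H76.Ker
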