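import Pool.Agent.H76.Ker.GoodChar

/-! Products of conjugates as lists, and passage to quotient coefficient groups. -/

set_option autoImplicit false

namespace Pool.Agent.H76.Ker

open Monoid

universe u v

section PC

variable {H Γ : Type*} [Group H] [Group Γ]

/-- The product of conjugates `h ι(g) h⁻¹` over a list of pairs `(h, g)`. -/
def pc (ι : Γ →* H) (l : List (H × Γ)) : H := (l.map (fun x => x.1 * ι x.2 * x.1⁻¹)).prod

theorem pc_nil (ι : Γ →* H) : pc ι [] = 1 := rfl

theorem pc_cons (ι : Γ →* H) (x : H × Γ) (l : List (H × Γ)) :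
    pc ι (x :: l) = x.1 * ι x.2 * x.1⁻¹ * pc ι l := by
  simp [pc]

theorem pc_append (ι : Γ →* H) (l l' : List (H × Γ)) : pc ι (l ++ l') = pc ι l * pc ι l' := by
  simp [pc]

theorem pc_map {H' Γ' : Type*} [Group H'] [Group Γ'] (ι : Γ →* H) (ι' : Γ' →* H') (f : H →* H')
    (π : Γ →* Γ') (hf : ∀ g, f (ι g) = ι' (π g)) (l : List (H × Γ)) :
    f (pc ι l) = pc ι' (l.map (fun x => (f x.1, π x.2))) := by
  induction l with
  | nil => simp [pc_nil]
  | cons x l ih =>
    rw [pc_cons, List.map_cons, pc_cons, map_mul, ih]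
    simp [hf]

theorem pc_conj (ι : Γ →* H) (k : H) (l : List (H × Γ)) :
    k * pc ι l * k⁻¹ = pc ι (l.map (fun x => (k * x.1, x.2))) := by
  induction l with
  | nil => simp [pc_nil]
  | cons x l ih =>
    rw [pc_cons, List.map_cons, pc_cons, ← ih]
    simp only [mul_inv_rev]
    group

theorem pc_inv (ι : Γ →* H) (l : List (H × Γ)) :
    (pc ι l)⁻¹ = pc ι (l.reverse.map (fun x => (x.1, x.2⁻¹))) := by
  induction l with
  | nil => simp [pc_nil]
  | cons x l ih =>
    rw [pc_cons, mul_inv_rev, ih, List.reverse_cons, List.map_append, pc_append]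
    congr 1
    simp [pc, mul_assoc]

theorem pc_ofFn (ι : Γ →* H) (r : ℕ) (h : Fin r → H) (g : Fin r → Γ) :
    pc ι (List.ofFn (fun i => (h i, g i))) = (List.ofFn (fun i => h i * ι (g i) * (h i)⁻¹)).prod := by
  rw [pc, List.map_ofFn]
  rfl

/-- Elements of a normal closure are products of conjugates. -/
theorem exists_pc (ι : Γ →* H) (K : Subgroup Γ) (x : H)
    (hx : x ∈ Subgroup.normalClosure (ι '' (K : Set Γ))) :
    ∃ l : List (H × Γ), (∀ y ∈ l, y.2 ∈ K) ∧ pc ι l = x := by
  let N : Subgroup H :=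
    { carrier := {x | ∃ l : List (H × Γ), (∀ y ∈ l, y.2 ∈ K) ∧ pc ι l = x}
      one_mem' := ⟨[], by simp, rfl⟩
      mul_mem' := by
        rintro _ _ ⟨l, hl, rfl⟩ ⟨l', hl', rfl⟩
        refine ⟨l ++ l', ?_, pc_append _ _ _⟩
        intro y hy
        rcases List.mem_append.mp hy with h | h
        · exact hl y h
        · exact hl' y h
      inv_mem' := by
        rintro _ ⟨l, hl, rfl⟩
        refine ⟨l.reverse.map (fun x => (x.1, x.2⁻¹)), ?_, (pc_inv _ _).symm⟩
        intro y hy
        rw [List.mem_map] at hy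
        obtain ⟨z, hz, rfl⟩ := hy
        exact K.inv_mem (hl z (List.mem_reverse.mp hz)) }
  have hN : N.Normal := by
    constructor
    rintro _ ⟨l, hl, rfl⟩ k
    refine ⟨l.map (fun x => (k * x.1, x.2)), ?_, (pc_conj _ _ _).symm⟩
    intro y hy
    rw [List.mem_map] at hy
    obtain ⟨z, hz, rfl⟩ := hy
    exact hl z hz
  have hle : Subgroup.normalClosure (ι '' (K : Set Γ)) ≤ N := by
    apply Subgroup.normalClosure_le_normal
    rintro _ ⟨k, hk, rfl⟩
    refine ⟨[(1, k)], ?_, ?_⟩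
    · intro y hy
      rw [List.mem_singleton] at hy
      subst hy
      exact hk
    · simp [pc]
  exact hle hx

end PC

section Quot

variable {Γ : Type u} {G : Type v} [Group Γ] [Group G] {n : ℕ}

/-- Change of coefficients. -/
def wmap (n : ℕ) (π : Γ →* G) : WG Γ n →* WG G n := Coprod.map π (MonoidHom.id (FreeGroup (Fin n)))

@[simp] theorem wmap_inl (π : Γ →* G) (g : Γ) : wmap n π (Coprod.inl g) = Coprod.inl (π g) := rfl

@[simp] theorem wmap_inr (π : Γ →* G) (x : FreeGroup (Fin n)) :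
    wmap n π (Coprod.inr x) = Coprod.inr x := rfl

theorem wmap_surj (π : Γ →* G) (hπ : Function.Surjective π) : Function.Surjective (wmap n π) := by
  rw [← MonoidHom.range_eq_top, eq_top_iff, ← Coprod.range_inl_sup_range_inr, sup_le_iff]
  constructor
  · rintro _ ⟨g, rfl⟩
    obtain ⟨γ, rfl⟩ := hπ g
    exact ⟨Coprod.inl γ, rfl⟩
  · rintro _ ⟨x, rfl⟩
    exact ⟨Coprod.inr x, rfl⟩

theorem wmap_expo (π : Γ →* G) (i : Fin n) (w : WG Γ n) :
    expo G n i (wmap n π w) = expo Γ n i w := by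
  have : (expo G n i).comp (wmap n π) = expo Γ n i := by
    refine hom_ext_wg ?_ ?_
    · intro a; simp
    · intro k; simp
  rw [← this]; rfl

theorem wmap_ker (π : Γ →* G) (hπ : Function.Surjective π) (x : WG Γ n) (hx : wmap n π x = 1) :
    x ∈ Subgroup.normalClosure ((Coprod.inl : Γ →* WG Γ n) '' (π.ker : Set Γ)) := by
  set N := Subgroup.normalClosure ((Coprod.inl : Γ →* WG Γ n) '' (π.ker : Set Γ)) with hN
  let f : Γ →* WG Γ n ⧸ N := (QuotientGroup.mk' N).comp Coprod.inl
  have hf : π.ker ≤ f.ker := by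
    intro k hk
    rw [MonoidHom.mem_ker]
    show QuotientGroup.mk' N (Coprod.inl k) = 1
    rw [← MonoidHom.mem_ker, QuotientGroup.ker_mk']
    exact Subgroup.subset_normalClosure ⟨k, hk, rfl⟩
  let F : G →* WG Γ n ⧸ N :=
    MonoidHom.liftOfRightInverse π (Function.surjInv hπ) (Function.rightInverse_surjInv hπ) ⟨f, hf⟩
  have hF : ∀ γ, F (π γ) = f γ := fun γ =>
    MonoidHom.liftOfRightInverse_comp_apply π _ (Function.rightInverse_surjInv hπ) ⟨f, hf⟩ γ
  let θ : WG G n →* WG Γ n ⧸ N := Coprod.lift F ((QuotientGroup.mk' N).comp Coprod.inr)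
  have hθ : θ.comp (wmap n π) = QuotientGroup.mk' N := by
    refine Coprod.hom_ext ?_ ?_
    · refine MonoidHom.ext fun γ => ?_
      show θ (Coprod.inl (π γ)) = _
      simp only [θ, Coprod.lift_apply_inl]
      rw [hF]
    · refine MonoidHom.ext fun γ => ?_
      show θ (Coprod.inr γ) = _
      simp only [θ, Coprod.lift_apply_inr]
  have h1 : QuotientGroup.mk' N x = 1 := by
    rw [← hθ]
    show θ (wmap n π x) = 1
    rw [hx, map_one]
  rw [← QuotientGroup.ker_mk' N]
  exact h1

/-- Product-one relations for coefficients in `K`, for all nonsingular systems over `Γ`. -/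
def QK (Γ : Type u) [Group Γ] (n : ℕ) (K : Set Γ) : Prop :=
  ∀ w : Fin n → WG Γ n,
    (Matrix.of fun i j => Multiplicative.toAdd (expo Γ n i (w j))).det ≠ 0 →
    ∀ l : List (WG Γ n × Γ), (∀ y ∈ l, y.2 ∈ K) →
      pc Coprod.inl l ∈ Subgroup.normalClosure (Set.range w) →
      ∃ l' : List (Γ × Γ), l'.map Prod.snd = l.map Prod.snd ∧ pc (MonoidHom.id Γ) l' = 1

theorem exists_lift_list (π : Γ →* G) (hπ : Function.Surjective π) (K : Set Γ)
    (l : List (WG G n × G)) (hl : ∀ y ∈ l, y.2 ∈ π '' K) :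
    ∃ l1 : List (WG Γ n × Γ), l1.map (fun x => (wmap n π x.1, π x.2)) = l ∧
      ∀ y ∈ l1, y.2 ∈ K := by
  induction l with
  | nil => exact ⟨[], rfl, by simp⟩
  | cons x l ih =>
    obtain ⟨l1, h1, h2⟩ := ih (fun y hy => hl y (List.mem_cons_of_mem _ hy))
    obtain ⟨γ, hγ, hγ'⟩ := hl x List.mem_cons_self
    obtain ⟨y, hy⟩ := wmap_surj (n := n) π hπ x.1
    refine ⟨(y, γ) :: l1, ?_, ?_⟩
    · rw [List.map_cons, h1, hy, hγ']
    · intro z hz
      rcases List.mem_cons.mp hz with rfl | hz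
      · exact hγ
      · exact h2 z hz

theorem QK_quot (π : Γ →* G) (hπ : Function.Surjective π) (K : Set Γ)
    (hK : (π.ker : Set Γ) ⊆ K) (hΓ : QK Γ n K) : QK G n (π '' K) := by
  intro w hdet l hl hH
  choose w' hw' using fun j => wmap_surj (n := n) π hπ (w j)
  obtain ⟨l1, hl1, hl1K⟩ := exists_lift_list π hπ K l hl
  have hdet' : (Matrix.of fun i j => Multiplicative.toAdd (expo Γ n i (w' j))).det ≠ 0 := by
    have : (Matrix.of fun i j => Multiplicative.toAdd (expo Γ n i (w' j)))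
        = (Matrix.of fun i j => Multiplicative.toAdd (expo G n i (w j))) := by
      ext i j
      simp only [Matrix.of_apply]
      rw [← hw' j, wmap_expo]
    rw [this]
    exact hdet
  have h1 : wmap n π (pc Coprod.inl l1) = pc Coprod.inl l := by
    rw [pc_map (Coprod.inl : Γ →* WG Γ n) (Coprod.inl : G →* WG G n) (wmap n π) π (fun _ => rfl), hl1]
  have h2 : Subgroup.normalClosure (Set.range w)
      = (Subgroup.normalClosure (Set.range w')).map (wmap n π) := by
    rw [Subgroup.map_normalClosure _ _ (wmap_surj π hπ)]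
    congr 1
    rw [← Set.range_comp]
    congr 1
    funext j
    exact (hw' j).symm
  rw [h2] at hH
  obtain ⟨y, hy, hyx⟩ := hH
  have h3 : wmap n π (y⁻¹ * pc Coprod.inl l1) = 1 := by
    rw [map_mul, map_inv, hyx, h1, inv_mul_cancel]
  obtain ⟨l2, hl2, hl2x⟩ := exists_pc (Coprod.inl : Γ →* WG Γ n) π.ker _ (wmap_ker π hπ _ h3)
  -- `y = pc l1 * (pc l2)⁻¹`
  set l3 := l2.reverse.map (fun x => (x.1, x.2⁻¹)) with hl3
  have h4 : pc Coprod.inl (l1 ++ l3) = y := by
    rw [pc_append, hl3, ← pc_inv, hl2x]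
    group
  have hl3K : ∀ z ∈ l3, z.2 ∈ π.ker := by
    intro z hz
    rw [hl3, List.mem_map] at hz
    obtain ⟨z', hz', rfl⟩ := hz
    exact π.ker.inv_mem (hl2 z' (List.mem_reverse.mp hz'))
  obtain ⟨l', hl', hl'1⟩ := hΓ w' hdet' (l1 ++ l3) (by
    intro z hz
    rcases List.mem_append.mp hz with h | h
    · exact hl1K z h
    · exact hK (hl3K z h)) (by rw [h4]; exact hy)
  rw [List.map_append] at hl'
  obtain ⟨a, b, rfl, ha, hb⟩ := List.map_eq_append_iff.mp hl'
  have h5 := congrArg π hl'1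
  rw [pc_map (MonoidHom.id Γ) (MonoidHom.id G) π π (fun _ => rfl), map_one, List.map_append,
    pc_append] at h5
  have h6 : pc (MonoidHom.id G) (b.map (fun x => (π x.1, π x.2))) = 1 := by
    have hbK : ∀ z ∈ b, z.2 ∈ π.ker := by
      intro z hz
      have : z.2 ∈ b.map Prod.snd := List.mem_map_of_mem hz
      rw [hb, List.mem_map] at this
      obtain ⟨z', hz', h⟩ := this
      rw [← h]
      exact hl3K z' hz'
    clear hb hl' hl'1 h5
    induction b with
    | nil => rfl
    | cons z b ih =>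
      rw [List.map_cons, pc_cons, ih (fun z' hz' => hbK z' (List.mem_cons_of_mem _ hz'))]
      have : π z.2 = 1 := hbK z List.mem_cons_self
      simp [this]
  rw [h6, mul_one] at h5
  refine ⟨a.map (fun x => (π x.1, π x.2)), ?_, h5⟩
  rw [List.map_map]
  have : (Prod.snd ∘ fun x : Γ × Γ => (π x.1, π x.2)) = π ∘ Prod.snd := rfl
  rw [this, ← List.map_map, ha, ← hl1, List.map_map, List.map_map]
  rfl

end Quot

end Pool.Agent.H76.Ker
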