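import Pool.Agent.H76.Ker.GoodChar2
import Pool.Agent.H76.Ker.Lift
import Pool.Agent.H76.Ker.Cyclo

/-! The torsion-free cover `Z^(Ω) ⋊ Z`. -/

set_option autoImplicit false

namespace Pool.Agent.H76.Ker

open Monoid Finset

universe u

/-- The semidirect product `Z^(Ω) ⋊ Z`. -/
@[ext] structure Gt (Ω : Type u) (σ : Equiv.Perm Ω) where
  /-- lattice part -/
  x : Ω →₀ ℤ
  /-- translation part -/
  k : ℤ

/-- The action of `σ ^ k`. -/
def act {Ω : Type u} (σ : Equiv.Perm Ω) (k : ℤ) (x : Ω →₀ ℤ) : Ω →₀ ℤ :=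
  Finsupp.equivMapDomain (σ ^ k) x

theorem act_apply {Ω : Type u} (σ : Equiv.Perm Ω) (k : ℤ) (x : Ω →₀ ℤ) (η : Ω) :
    act σ k x η = x ((σ ^ (-k)) η) := by
  rw [act, Finsupp.equivMapDomain_apply, zpow_neg]
  rfl

theorem act_add {Ω : Type u} (σ : Equiv.Perm Ω) (k : ℤ) (x y : Ω →₀ ℤ) :
    act σ k (x + y) = act σ k x + act σ k y := by
  ext η; simp [act_apply]

theorem act_act {Ω : Type u} (σ : Equiv.Perm Ω) (k l : ℤ) (x : Ω →₀ ℤ) :
    act σ k (act σ l x) = act σ (k + l) x := by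
  ext η
  rw [act_apply, act_apply, act_apply, ← Equiv.Perm.mul_apply, ← zpow_add]
  congr 3
  ring

theorem act_zero {Ω : Type u} (σ : Equiv.Perm Ω) (x : Ω →₀ ℤ) : act σ 0 x = x := by
  ext η; simp [act_apply]

theorem act_z {Ω : Type u} (σ : Equiv.Perm Ω) (k : ℤ) : act σ k (0 : Ω →₀ ℤ) = 0 := by
  ext η; simp [act_apply]

theorem act_neg {Ω : Type u} (σ : Equiv.Perm Ω) (k : ℤ) (x : Ω →₀ ℤ) :
    act σ k (-x) = -act σ k x := by
  ext η; simp [act_apply]

namespace Gt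

variable {Ω : Type u} {σ : Equiv.Perm Ω}

noncomputable instance : Mul (Gt Ω σ) := ⟨fun a b => ⟨a.x + act σ a.k b.x, a.k + b.k⟩⟩
instance : One (Gt Ω σ) := ⟨⟨0, 0⟩⟩
noncomputable instance : Inv (Gt Ω σ) := ⟨fun a => ⟨-act σ (-a.k) a.x, -a.k⟩⟩

@[simp] theorem mul_x (a b : Gt Ω σ) : (a * b).x = a.x + act σ a.k b.x := rfl
@[simp] theorem mul_k (a b : Gt Ω σ) : (a * b).k = a.k + b.k := rfl
@[simp] theorem one_x : (1 : Gt Ω σ).x = 0 := rfl
@[simp] theorem one_k : (1 : Gt Ω σ).k = 0 := rfl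
@[simp] theorem inv_x (a : Gt Ω σ) : (a⁻¹).x = -act σ (-a.k) a.x := rfl
@[simp] theorem inv_k (a : Gt Ω σ) : (a⁻¹).k = -a.k := rfl

noncomputable instance : Group (Gt Ω σ) where
  mul_assoc a b c := by
    ext1
    · simp [act_add, act_act, add_assoc]
    · simp [add_assoc]
  one_mul a := by
    ext1
    · simp [act_zero]
    · simp
  mul_one a := by
    ext1
    · simp [act_z]
    · simp
  inv_mul_cancel a := by
    ext1
    · simp
    · simp

/-- The translation part as a homomorphism. -/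
noncomputable def kap : Gt Ω σ →* Multiplicative ℤ where
  toFun a := Multiplicative.ofAdd a.k
  map_one' := rfl
  map_mul' _ _ := rfl

@[simp] theorem kap_apply (a : Gt Ω σ) : kap a = Multiplicative.ofAdd a.k := rfl

end Gt

theorem sum_shift_int {M : Type*} [AddCommGroup M] (p : ℕ) (F : ℤ → M)
    (hF : ∀ i, F (i + p) = F i) (a : ℤ) :
    ∑ i ∈ range p, F ((i : ℤ) + a) = ∑ i ∈ range p, F (i : ℤ) := by
  obtain ⟨m, rfl | rfl⟩ := a.eq_nat_or_neg
  · exact sum_shift p F hF m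
  · have := sum_shift p (fun i => F (i - m)) (fun i => by
      show F (i + p - m) = F (i - m)
      rw [← hF (i - m)]; congr 1; ring) m
    rw [← sub_eq_zero] at this ⊢
    rw [← neg_eq_zero, ← this]
    simp [sub_eq_add_neg]

section Rep

variable {Ω : Type u} {σ : Equiv.Perm Ω} {K : Type*} [Field K]

theorem perm_period {p : ℕ} (hσ : σ ^ p = 1) (i : ℤ) (η : Ω) :
    (σ ^ (i + p)) η = (σ ^ i) η := by
  rw [zpow_add, zpow_natCast, hσ, mul_one]

/-- The weighted orbit sum. -/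
noncomputable def V (p : ℕ) (ζ : Kˣ) (η : Ω) (x : Ω →₀ ℤ) : K :=
  ∑ i ∈ range p, ((ζ ^ (i : ℤ) : Kˣ) : K) * ((x ((σ ^ (i : ℤ)) η) : ℤ) : K)

theorem V_add (p : ℕ) (ζ : Kˣ) (η : Ω) (x y : Ω →₀ ℤ) :
    V (σ := σ) p ζ η (x + y) = V (σ := σ) p ζ η x + V (σ := σ) p ζ η y := by
  simp [V, mul_add, Finset.sum_add_distrib]

theorem V_act (p : ℕ) (hσ : σ ^ p = 1) (ζ : Kˣ) (hζ : ζ ^ p = 1) (η : Ω) (k : ℤ) (x : Ω →₀ ℤ) :
    V (σ := σ) p ζ η (act σ k x) = ((ζ ^ k : Kˣ) : K) * V (σ := σ) p ζ η x := by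
  let F : ℤ → K := fun i => ((ζ ^ i : Kˣ) : K) * ((x ((σ ^ i) η) : ℤ) : K)
  have hF : ∀ i, F (i + p) = F i := by
    intro i
    simp only [F]
    rw [perm_period hσ, zpow_add, zpow_natCast, hζ, mul_one]
  have h1 := sum_shift_int p F hF (-k)
  have h2 : V (σ := σ) p ζ η x = ∑ i ∈ range p, F (i : ℤ) := rfl
  rw [h2, ← h1, Finset.mul_sum, V]
  apply Finset.sum_congr rfl
  intro i _
  simp only [F]
  rw [act_apply, ← mul_assoc, ← Units.val_mul, ← zpow_add, ← Equiv.Perm.mul_apply, ← zpow_add]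
  have e1 : k + ((i : ℤ) + -k) = i := by ring
  have e2 : -k + (i : ℤ) = (i : ℤ) + -k := by ring
  rw [e1, e2]

/-- The affine representation of the cover. -/
noncomputable def rep (p : ℕ) (hσ : σ ^ p = 1) (ζ : Kˣ) (hζ : ζ ^ p = 1) (η : Ω) :
    Gt Ω σ →* Aff K K where
  toFun a := ⟨V (σ := σ) p ζ η a.x, ζ ^ a.k⟩
  map_one' := by
    ext
    · simp [V]
    · simp
  map_mul' a b := by
    ext
    · simp [V_add, V_act p hσ ζ hζ, Units.smul_def]
    · simp [zpow_add]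

end Rep

section Rel

variable {Γ : Type u} [Group Γ] {n : ℕ}

theorem aff_rel {S M : Type*} [CommRing S] [AddCommGroup M] [Module S M]
    (Φ : WG Γ n →* Aff S M) (w : Fin n → WG Γ n) (hw : ∀ j, Φ (w j) = 1) {r : ℕ}
    (h : Fin r → WG Γ n) (g : Fin r → Γ)
    (hmem : (List.ofFn (fun i => h i * Coprod.inl (g i) * (h i)⁻¹)).prod
      ∈ Subgroup.normalClosure (Set.range w))
    (hu : ∀ i, (Φ (Coprod.inl (g i))).u = 1) :
    ∑ i, (Φ (h i)).u • (Φ (Coprod.inl (g i))).t = 0 := by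
  have hker : Subgroup.normalClosure (Set.range w) ≤ Φ.ker := by
    apply Subgroup.normalClosure_le_normal
    rintro _ ⟨j, rfl⟩
    exact hw j
  have h1 : Φ (List.ofFn (fun i => h i * Coprod.inl (g i) * (h i)⁻¹)).prod = 1 := hker hmem
  rw [map_list_prod, List.map_ofFn] at h1
  have h2 : ∀ i, (Φ (h i * Coprod.inl (g i) * (h i)⁻¹)).t
      = (Φ (h i)).u • (Φ (Coprod.inl (g i))).t ∧ (Φ (h i * Coprod.inl (g i) * (h i)⁻¹)).u = 1 := by
    intro i
    rw [map_mul, map_mul, map_inv]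
    exact Aff.conj_t _ _ (hu i)
  have h3 := (Aff.list_prod_t (List.ofFn (Φ ∘ fun i => h i * Coprod.inl (g i) * (h i)⁻¹)) (by
    intro a ha
    rw [List.mem_ofFn] at ha
    obtain ⟨i, rfl⟩ := ha
    exact (h2 i).2)).1
  rw [h1, Aff.one_t, List.map_ofFn, List.sum_ofFn] at h3
  rw [h3]
  apply Finset.sum_congr rfl
  intro i _
  exact (h2 i).1.symm

/-- Every homomorphism to `ℤ` kills a product-one relation. -/
theorem hom_rel (w : Fin n → WG Γ n)
    (hdet : (Matrix.of fun i j => Multiplicative.toAdd (expo Γ n i (w j))).det ≠ 0) {r : ℕ}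
    (h : Fin r → WG Γ n) (g : Fin r → Γ)
    (hmem : (List.ofFn (fun i => h i * Coprod.inl (g i) * (h i)⁻¹)).prod
      ∈ Subgroup.normalClosure (Set.range w)) (τ : Γ →* Multiplicative ℤ) :
    ∑ i, Multiplicative.toAdd (τ (g i)) = 0 := by
  let v : Γ →* Aff ℚ ℚ :=
    { toFun := fun γ => ⟨((Multiplicative.toAdd (τ γ) : ℤ) : ℚ), 1⟩
      map_one' := by ext <;> simp
      map_mul' := fun a b => by ext <;> simp }
  obtain ⟨m, hm⟩ := solve (1 : WG Γ n →* ℚˣ) v (fun _ => rfl) w (fun _ => rfl) (by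
    have : (Matrix.of (fun j i => (fox (1 : WG Γ n →* ℚˣ) (w j)).t i))
        = ((Matrix.of fun i j => Multiplicative.toAdd (expo Γ n i (w j))).transpose).map
            (Int.castRingHom ℚ) := by
      ext j i
      simp [fox_one]
    rw [this]
    have h2 := RingHom.map_det (Int.castRingHom ℚ)
      ((Matrix.of fun i j => Multiplicative.toAdd (expo Γ n i (w j))).transpose)
    rw [RingHom.mapMatrix_apply] at h2
    rw [← h2, Matrix.det_transpose]
    simpa using hdet)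
  have h1 := aff_rel (ev 1 v m) w hm h g hmem (fun i => by rw [ev_inl]; rfl)
  have h2 : ∑ i, ((Multiplicative.toAdd (τ (g i)) : ℤ) : ℚ) = 0 := by
    rw [← h1]
    apply Finset.sum_congr rfl
    intro i _
    rw [ev_u (1 : WG Γ n →* ℚˣ) v (fun _ => rfl), ev_inl]
    simp [v]
  exact_mod_cast h2

end Rel

end Pool.Agent.H76.Ker
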