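import Pool.Agent.H76.Ker.Core

/-! Product-one relations in the torsion-free cover `Z^(Ω) ⋊ Z`. -/

set_option autoImplicit false

namespace Pool.Agent.H76.Ker

open Monoid Finset

universe u

/-- A primitive `p^(f+1)`-th root of unity with prescribed `p^f`-th power. -/
theorem exists_root (p f : ℕ) (hp : p.Prime) (ζ : ℂ) (hζ : IsPrimitiveRoot ζ p) :
    ∃ ω : ℂ, IsPrimitiveRoot ω (p ^ (f + 1)) ∧ ω ^ (p ^ f) = ζ := by
  have h0 : p ^ (f + 1) ≠ 0 := pow_ne_zero _ hp.ne_zero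
  have hω0 := Complex.isPrimitiveRoot_exp (p ^ (f + 1)) h0
  set ω0 := Complex.exp (2 * Real.pi * Complex.I / ((p ^ (f + 1) : ℕ) : ℂ)) with hω0d
  have h1 : IsPrimitiveRoot (ω0 ^ (p ^ f)) p :=
    hω0.pow (Nat.pos_of_ne_zero h0) (pow_succ p f)
  have := NeZero.mk hp.ne_zero
  obtain ⟨a, ha, haζ⟩ := h1.eq_pow_of_pow_eq_one hζ.pow_eq_one
  have ha0 : a ≠ 0 := by
    rintro rfl
    rw [pow_zero] at haζ
    have := hζ.ne_one hp.one_lt
    exact this haζ.symm
  have hcop : a.Coprime (p ^ (f + 1)) := by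
    apply Nat.Coprime.pow_right
    rw [Nat.coprime_comm, Nat.Prime.coprime_iff_not_dvd hp]
    intro hd
    exact absurd (Nat.le_of_dvd (Nat.pos_of_ne_zero ha0) hd) (not_le.mpr ha)
  refine ⟨ω0 ^ a, hω0.pow_of_coprime a hcop, ?_⟩
  rw [← haζ, ← pow_mul, ← pow_mul, mul_comm]

variable {Ω : Type u} {σ : Equiv.Perm Ω} {n : ℕ}

theorem core_shift (p : ℕ) (hp : p.Prime) (hσ : σ ^ p = 1) (w : Fin n → WG (Gt Ω σ) n)
    (hdet : (Matrix.of fun i j => Multiplicative.toAdd (expo (Gt Ω σ) n i (w j))).det ≠ 0)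
    {r : ℕ} (h : Fin r → WG (Gt Ω σ) n) (g : Fin r → Gt Ω σ) (hg : ∀ v, (p : ℤ) ∣ (g v).k)
    (hmem : (List.ofFn (fun i => h i * Coprod.inl (g i) * (h i)⁻¹)).prod
      ∈ Subgroup.normalClosure (Set.range w)) :
    ∃ I : Fin r → ℕ, ∑ v, act σ (I v) (g v).x = 0 := by
  classical
  obtain ⟨f, χ, ζ, hχ1, hχw, hζ, hχζ, hχdet⟩ := good_char (Gt.kap (Ω := Ω) (σ := σ)) p hp w hdet
  obtain ⟨ω, hω, hωq⟩ := exists_root p f hp ζ hζ
  set q := p ^ f with hq
  have hq0 : 0 < q := pow_pos hp.pos _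
  have hζ0 : ζ ≠ 0 := hζ.ne_zero hp.ne_zero
  let ζu : ℂˣ := Units.mk0 ζ hζ0
  have hζu : ζu ^ p = 1 := by
    apply Units.ext
    rw [Units.val_pow_eq_pow_val]
    exact hζ.pow_eq_one
  have hpow : p ^ (f + 1) = q * p := pow_succ p f
  have := NeZero.mk (pow_ne_zero (f + 1) hp.ne_zero)
  have hchoose : ∀ v, ∃ e, e < p ^ (f + 1) ∧ ω ^ e = ((χ (h v) : ℂˣ) : ℂ) := by
    intro v
    apply hω.eq_pow_of_pow_eq_one
    have := congrArg (fun x : ℂˣ => (x : ℂ)) (hχ1 (h v))
    simpa using this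
  choose e he hωe using hchoose
  refine ⟨fun v => e v / q, ?_⟩
  ext η
  rw [Finsupp.finsetSum_apply, Finsupp.coe_zero, Pi.zero_apply]
  -- the affine relation
  obtain ⟨m, hm⟩ := solve χ (rep p hσ ζu hζu η) (by
    intro γ
    apply Units.ext
    rw [hχζ]
    show ((ζu ^ γ.k : ℂˣ) : ℂ) = ζ ^ (Multiplicative.toAdd (Gt.kap γ))
    simp [ζu]) w hχw hχdet
  have hu : ∀ γ : Gt Ω σ, (rep p hσ ζu hζu η γ).u = χ (Coprod.inl γ) := by
    intro γ
    apply Units.ext
    rw [hχζ]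
    show ((ζu ^ γ.k : ℂˣ) : ℂ) = ζ ^ (Multiplicative.toAdd (Gt.kap γ))
    simp [ζu]
  have h1 := aff_rel (ev χ (rep p hσ ζu hζu η) m) w hm h g hmem (fun v => by
    rw [ev_inl]
    show ζu ^ (g v).k = 1
    obtain ⟨c, hc⟩ := hg v
    rw [hc, zpow_mul, zpow_natCast, hζu, one_zpow])
  have h2 : ∑ v, ω ^ (e v) * V (σ := σ) p ζu η (g v).x = 0 := by
    rw [← h1]
    apply Finset.sum_congr rfl
    intro v _
    rw [ev_u χ _ hu, ev_inl, hωe v]
    rfl
  -- the coefficients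
  let T : ℕ → ℕ → ℤ := fun j i =>
    ∑ v, if e v % q = j then (g v).x ((σ ^ ((i : ℤ) - (e v / q : ℕ))) η) else 0
  have hT : ∑ j ∈ range q, ∑ i ∈ range p, (T j i : ℂ) * ω ^ (q * i + j) = 0 := by
    rw [← h2]
    have e1 : ∑ j ∈ range q, ∑ i ∈ range p, (T j i : ℂ) * ω ^ (q * i + j)
        = ∑ v, ∑ i ∈ range p,
            (((g v).x ((σ ^ ((i : ℤ) - (e v / q : ℕ))) η) : ℤ) : ℂ) * ω ^ (q * i + e v % q) := by
      simp only [T]
      have : ∀ j ∈ range q, ∑ i ∈ range p,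
          (((∑ v, if e v % q = j then (g v).x ((σ ^ ((i : ℤ) - (e v / q : ℕ))) η) else 0) : ℤ) : ℂ)
            * ω ^ (q * i + j)
          = ∑ v, if e v % q = j then ∑ i ∈ range p,
            (((g v).x ((σ ^ ((i : ℤ) - (e v / q : ℕ))) η) : ℤ) : ℂ) * ω ^ (q * i + e v % q)
              else 0 := by
        intro j _
        push_cast
        simp_rw [Finset.sum_mul]
        rw [Finset.sum_comm]
        apply Finset.sum_congr rfl
        intro v _
        split_ifs with hj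
        · apply Finset.sum_congr rfl
          intro i _
          rw [hj]
        · simp
      rw [Finset.sum_congr rfl this, Finset.sum_comm]
      apply Finset.sum_congr rfl
      intro v _
      rw [Finset.sum_ite_eq]
      rw [if_pos (Finset.mem_range.mpr (Nat.mod_lt _ hq0))]
    rw [e1]
    apply Finset.sum_congr rfl
    intro v _
    let F : ℤ → ℂ := fun i => (((g v).x ((σ ^ (i - (e v / q : ℕ))) η) : ℤ) : ℂ)
      * (ζ ^ i * ω ^ (e v % q))
    have hF : ∀ i, F (i + p) = F i := by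
      intro i
      simp only [F]
      have a1 : i + (p : ℤ) - (e v / q : ℕ) = i - (e v / q : ℕ) + p := by ring
      rw [a1, perm_period hσ, zpow_add₀ hζ0, zpow_natCast, hζ.pow_eq_one, mul_one]
    have h3 := sum_shift_int p F hF ((e v / q : ℕ) : ℤ)
    have h4 : ∑ i ∈ range p,
        (((g v).x ((σ ^ ((i : ℤ) - (e v / q : ℕ))) η) : ℤ) : ℂ) * ω ^ (q * i + e v % q)
        = ∑ i ∈ range p, F (i : ℤ) := by
      apply Finset.sum_congr rfl
      intro i _
      simp only [F]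
      rw [pow_add, pow_mul, hωq, zpow_natCast]
    rw [h4, ← h3, V, Finset.mul_sum]
    apply Finset.sum_congr rfl
    intro i _
    simp only [F]
    have h5 : ω ^ (e v) = ζ ^ (e v / q) * ω ^ (e v % q) := by
      rw [← hωq, ← pow_mul, ← pow_add, Nat.div_add_mod]
    rw [add_sub_cancel_right, h5, zpow_add₀ hζ0, zpow_natCast, zpow_natCast]
    simp only [ζu, zpow_natCast, Units.val_pow_eq_pow_val, Units.val_mk0]
    ring
  have hcyc := cyc p f hp ω hω T hT
  -- the trivial character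
  have h6 : ∑ v, ∑ i ∈ range p, (g v).x ((σ ^ (i : ℤ)) η) = 0 := by
    let τ : Gt Ω σ →* Multiplicative ℤ :=
      { toFun := fun a => Multiplicative.ofAdd (∑ i ∈ range p, a.x ((σ ^ (i : ℤ)) η))
        map_one' := by simp
        map_mul' := fun a b => by
          rw [← ofAdd_add]
          congr 1
          have a1 := sum_shift_int p (fun i => b.x ((σ ^ i) η)) (fun i => by
            show b.x ((σ ^ (i + (p : ℤ))) η) = _
            rw [perm_period hσ]) (-a.k)
          rw [← a1, ← Finset.sum_add_distrib]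
          apply Finset.sum_congr rfl
          intro i _
          rw [Gt.mul_x, Finsupp.add_apply, act_apply, ← Equiv.Perm.mul_apply, ← zpow_add,
            add_comm (-a.k)] }
    exact hom_rel w hdet h g hmem τ
  have h7 : ∀ v, ∑ i ∈ range p, (g v).x ((σ ^ ((i : ℤ) - (e v / q : ℕ))) η)
      = ∑ i ∈ range p, (g v).x ((σ ^ (i : ℤ)) η) := by
    intro v
    exact sum_shift_int p (fun i => (g v).x ((σ ^ i) η)) (fun i => by
      show (g v).x ((σ ^ (i + (p : ℤ))) η) = _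
      rw [perm_period hσ]) (-((e v / q : ℕ) : ℤ))
  have h8 : ∑ j ∈ range q, ∑ i ∈ range p, T j i = 0 := by
    rw [← h6, Finset.sum_comm]
    have : ∀ i ∈ range p, ∑ j ∈ range q, T j i
        = ∑ v, (g v).x ((σ ^ ((i : ℤ) - (e v / q : ℕ))) η) := by
      intro i _
      simp only [T]
      rw [Finset.sum_comm]
      apply Finset.sum_congr rfl
      intro v _
      rw [Finset.sum_ite_eq, if_pos (Finset.mem_range.mpr (Nat.mod_lt _ hq0))]
    rw [Finset.sum_congr rfl this, Finset.sum_comm]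
    apply Finset.sum_congr rfl
    intro v _
    exact h7 v
  have h9 : ∑ j ∈ range q, T j 0 = 0 := by
    have a1 : ∑ j ∈ range q, ∑ i ∈ range p, T j i = p * ∑ j ∈ range q, T j 0 := by
      rw [Finset.mul_sum]
      apply Finset.sum_congr rfl
      intro j hj
      rw [Finset.sum_congr rfl (fun i hi => hcyc j (Finset.mem_range.mp hj) i
        (Finset.mem_range.mp hi))]
      simp
    rw [a1] at h8
    exact (mul_eq_zero.mp h8).resolve_left (by exact_mod_cast hp.ne_zero)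
  rw [← h9]
  simp only [T]
  rw [Finset.sum_comm]
  apply Finset.sum_congr rfl
  intro v _
  rw [Finset.sum_ite_eq, if_pos (Finset.mem_range.mpr (Nat.mod_lt _ hq0)), act_apply]
  congr 3
  simp

theorem act_mul_p {p : ℕ} (hσ : σ ^ p = 1) (k : ℤ) (hk : (p : ℤ) ∣ k) (x : Ω →₀ ℤ) :
    act σ k x = x := by
  obtain ⟨c, rfl⟩ := hk
  ext η
  rw [act_apply, ← mul_neg, zpow_mul, zpow_natCast, hσ, one_zpow]
  rfl

theorem conj_shift (i : ℤ) (a : Gt Ω σ) :
    (⟨0, i⟩ : Gt Ω σ) * a * (⟨0, i⟩ : Gt Ω σ)⁻¹ = ⟨act σ i a.x, a.k⟩ := by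
  ext1
  · simp [act_z]
  · simp

theorem core_QK (p : ℕ) (hp : p.Prime) (hσ : σ ^ p = 1) (n : ℕ) :
    QK (Gt Ω σ) n {a | (p : ℤ) ∣ a.k} := by
  intro w hdet l hl hmem
  set r := l.length with hr
  let h : Fin r → WG (Gt Ω σ) n := fun i => (l.get i).1
  let g : Fin r → Gt Ω σ := fun i => (l.get i).2
  have hl2 : List.ofFn (fun i => (h i, g i)) = l := by
    have : (fun i => (h i, g i)) = l.get := by
      funext i
      rfl
    rw [this, List.ofFn_get]
  have hg : ∀ v, (p : ℤ) ∣ (g v).k := fun v => hl _ (List.get_mem l v)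
  have hmem' : (List.ofFn (fun i => h i * Coprod.inl (g i) * (h i)⁻¹)).prod
      ∈ Subgroup.normalClosure (Set.range w) := by
    rw [← pc_ofFn, hl2]
    exact hmem
  obtain ⟨I, hI⟩ := core_shift p hp hσ w hdet h g hg hmem'
  have hk : ∑ v, (g v).k = 0 := by
    have := hom_rel w hdet h g hmem' Gt.kap
    simpa using this
  refine ⟨List.ofFn (fun v => ((⟨0, (I v : ℤ)⟩ : Gt Ω σ), g v)), ?_, ?_⟩
  · rw [← hl2, List.map_ofFn, List.map_ofFn]
    rfl
  · rw [pc_ofFn]
    have key : ∀ (r : ℕ) (g : Fin r → Gt Ω σ) (I : Fin r → ℕ), (∀ v, (p : ℤ) ∣ (g v).k) →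
        (List.ofFn (fun i => (⟨0, (I i : ℤ)⟩ : Gt Ω σ) * MonoidHom.id (Gt Ω σ) (g i)
          * (⟨0, (I i : ℤ)⟩ : Gt Ω σ)⁻¹)).prod
        = ⟨∑ v, act σ (I v) (g v).x, ∑ v, (g v).k⟩ := by
      intro r
      induction r with
      | zero => intro g I _; simp; rfl
      | succ r ih =>
        intro g I hg
        rw [List.ofFn_succ, List.prod_cons, ih _ _ (fun v => hg v.succ), MonoidHom.id_apply,
          conj_shift]
        ext1
        · rw [Gt.mul_x, act_mul_p hσ _ (hg 0), Fin.sum_univ_succ]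
        · show (g 0).k + ∑ v : Fin r, (g v.succ).k = ∑ v, (g v).k
          rw [Fin.sum_univ_succ]
    rw [key r g I hg, hI, hk]
    rfl

end Pool.Agent.H76.Ker
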