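import Mathlib

/-! Group rings of finite abelian groups: separation by characters and the norm argument. -/

set_option autoImplicit false

namespace Pool.Agent.H76.Ker

open Finset

section

variable {P : Type*} [AddCommGroup P]

/-- The augmentation. -/
noncomputable def aug (P : Type*) [AddCommGroup P] : AddMonoidAlgebra ℤ P →ₐ[ℤ] ℤ :=
  AddMonoidAlgebra.lift ℤ ℤ P 1

/-- Evaluation at a character. -/
noncomputable def evc (ψ : AddChar P ℂ) : AddMonoidAlgebra ℤ P →ₐ[ℤ] ℂ :=
  AddMonoidAlgebra.lift ℤ ℂ P ψ.toMonoidHom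

theorem evc_single (ψ : AddChar P ℂ) (a : P) (m : ℤ) :
    evc ψ (AddMonoidAlgebra.single a m) = (m : ℂ) * ψ a := by
  simp [evc, AddMonoidAlgebra.lift_apply]

theorem evc_apply [Fintype P] (ψ : AddChar P ℂ) (y : AddMonoidAlgebra ℤ P) :
    evc ψ y = ∑ a, (y.coeff a : ℂ) * ψ a := by
  rw [evc, AddMonoidAlgebra.lift_apply, Finsupp.sum_fintype]
  · apply Finset.sum_congr rfl
    intro a _
    simp
  · intro a; simp

theorem aug_apply [Fintype P] (y : AddMonoidAlgebra ℤ P) :
    aug P y = ∑ a, y.coeff a := by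
  rw [aug, AddMonoidAlgebra.lift_apply, Finsupp.sum_fintype]
  · apply Finset.sum_congr rfl
    intro a _
    simp
  · intro a; simp

theorem char_sep [Finite P] (y : AddMonoidAlgebra ℤ P) (h : ∀ ψ : AddChar P ℂ, evc ψ y = 0) :
    y = 0 := by
  classical
  have := Fintype.ofFinite P
  ext g
  have h1 : ∑ ψ : AddChar P ℂ, ψ (-g) * evc ψ y = 0 := by
    apply Finset.sum_eq_zero
    intro ψ _
    rw [h ψ, mul_zero]
  have h2 : ∑ ψ : AddChar P ℂ, ψ (-g) * evc ψ y
      = ∑ a, (y.coeff a : ℂ) * ∑ ψ : AddChar P ℂ, ψ (a - g) := by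
    simp_rw [evc_apply, Finset.mul_sum]
    rw [Finset.sum_comm]
    apply Finset.sum_congr rfl
    intro a _
    apply Finset.sum_congr rfl
    intro ψ _
    rw [sub_eq_add_neg, AddChar.map_add_eq_mul]
    ring
  rw [h2] at h1
  simp_rw [AddChar.sum_apply_eq_ite, sub_eq_zero] at h1
  simp only [mul_ite, mul_zero, Finset.sum_ite_eq', Finset.mem_univ, if_true] at h1
  have h3 : (Fintype.card P : ℂ) ≠ 0 := Nat.cast_ne_zero.mpr Fintype.card_ne_zero
  have h4 := (mul_eq_zero.mp h1).resolve_right h3
  simpa using h4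

/-- The norm argument. -/
theorem norm_arg [Finite P] (p : ℕ) (hp : p ≠ 0) (s : P) (hs : p • s = 0) {ι : Type*} (b : ι → P)
    (hgen : AddSubgroup.closure (insert s (Set.range b)) = ⊤) (z : AddMonoidAlgebra ℤ P)
    (hz : (AddMonoidAlgebra.single s 1 - 1) * z = 0)
    (hb : ∀ i, ∃ y, (AddMonoidAlgebra.single (b i) 1 - 1) * z
      = y * (AddMonoidAlgebra.single s 1 - 1)) :
    ∃ c : ℤ, aug P z = c * Nat.card P := by
  classical
  have := Fintype.ofFinite P
  set σ : AddMonoidAlgebra ℤ P := AddMonoidAlgebra.single s 1 with hσ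
  have hσp : σ ^ p = 1 := by
    rw [hσ, AddMonoidAlgebra.single_pow, hs, one_pow, AddMonoidAlgebra.one_def]
  have hσz : σ * z = z := by
    have := hz
    rw [sub_mul, one_mul, sub_eq_zero] at this
    exact this
  have hσkz : ∀ k : ℕ, σ ^ k * z = z := by
    intro k
    induction k with
    | zero => simp
    | succ k ih => rw [pow_succ', mul_assoc, ih, hσz]
  set N : AddMonoidAlgebra ℤ P := ∑ k ∈ range p, σ ^ k with hN
  have hN1 : N * (σ - 1) = 0 := by
    rw [hN, geom_sum_mul, hσp, sub_self]
  have hNz : N * z = (p : AddMonoidAlgebra ℤ P) * z := by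
    rw [hN, Finset.sum_mul]
    simp_rw [hσkz]
    simp
  have hbz : ∀ i, AddMonoidAlgebra.single (b i) (1 : ℤ) * z = z := by
    intro i
    obtain ⟨y, hy⟩ := hb i
    have h1 : (p : AddMonoidAlgebra ℤ P) * ((AddMonoidAlgebra.single (b i) 1 - 1) * z) = 0 := by
      calc (p : AddMonoidAlgebra ℤ P) * ((AddMonoidAlgebra.single (b i) 1 - 1) * z)
          = (AddMonoidAlgebra.single (b i) 1 - 1) * ((p : AddMonoidAlgebra ℤ P) * z) := by ring
        _ = (AddMonoidAlgebra.single (b i) 1 - 1) * (N * z) := by rw [hNz]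
        _ = N * ((AddMonoidAlgebra.single (b i) 1 - 1) * z) := by ring
        _ = N * (y * (σ - 1)) := by rw [hy]
        _ = y * (N * (σ - 1)) := by ring
        _ = 0 := by rw [hN1, mul_zero]
    have h2 : (AddMonoidAlgebra.single (b i) (1 : ℤ) - 1) * z = 0 := by
      ext g
      have h3 : ((p : AddMonoidAlgebra ℤ P) *
          ((AddMonoidAlgebra.single (b i) 1 - 1) * z)).coeff g = 0 := by
        rw [h1]; rfl
      rw [← nsmul_eq_mul] at h3
      have h4 : (p • ((AddMonoidAlgebra.single (b i) (1 : ℤ) - 1) * z)).coeff g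
          = p • (((AddMonoidAlgebra.single (b i) (1 : ℤ) - 1) * z).coeff g) := rfl
      rw [h4] at h3
      simp only [nsmul_eq_mul, mul_eq_zero, Nat.cast_eq_zero] at h3
      exact h3.resolve_left hp
    rw [sub_mul, one_mul, sub_eq_zero] at h2
    exact h2
  have hinv : ∀ g : P, AddMonoidAlgebra.single g (1 : ℤ) * z = z := by
    let K : AddSubgroup P :=
      { carrier := {g | AddMonoidAlgebra.single g (1 : ℤ) * z = z}
        zero_mem' := by
          show AddMonoidAlgebra.single (0 : P) (1 : ℤ) * z = z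
          rw [← AddMonoidAlgebra.one_def, one_mul]
        add_mem' := by
          intro a c ha hc
          have ha' : AddMonoidAlgebra.single a (1 : ℤ) * z = z := ha
          have hc' : AddMonoidAlgebra.single c (1 : ℤ) * z = z := hc
          show AddMonoidAlgebra.single (a + c) (1 : ℤ) * z = z
          have : (AddMonoidAlgebra.single (a + c) (1 : ℤ) : AddMonoidAlgebra ℤ P)
              = AddMonoidAlgebra.single a 1 * AddMonoidAlgebra.single c 1 := by
            rw [AddMonoidAlgebra.single_mul_single, one_mul]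
          rw [this, mul_assoc, hc', ha']
        neg_mem' := by
          intro a ha
          have ha' : AddMonoidAlgebra.single a (1 : ℤ) * z = z := ha
          show AddMonoidAlgebra.single (-a) (1 : ℤ) * z = z
          conv_lhs => rw [← ha']
          rw [← mul_assoc, AddMonoidAlgebra.single_mul_single, neg_add_cancel, one_mul,
            ← AddMonoidAlgebra.one_def, one_mul] }
    have hK : K = ⊤ := by
      rw [← top_le_iff, ← hgen, AddSubgroup.closure_le]
      rintro x (rfl | ⟨i, rfl⟩)
      · exact hσz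
      · exact hbz i
    intro g
    have : g ∈ K := by rw [hK]; trivial
    exact this
  refine ⟨z.coeff 0, ?_⟩
  have hcst : ∀ g : P, z.coeff g = z.coeff 0 := by
    intro g
    have h1 := congrArg (fun x : AddMonoidAlgebra ℤ P => x.coeff g) (hinv g)
    simp only [AddMonoidAlgebra.coeff_single_mul_apply] at h1
    rw [← h1]
    simp
  rw [aug_apply]
  simp_rw [hcst]
  simp [mul_comm]

end

end Pool.Agent.H76.Ker
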