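import Pool.Agent.H76.Ker.Aff
import Pool.Agent.H76.Ker.GRing

/-! Existence of a character of `p`-power order with nonsingular Fox matrix. -/

set_option autoImplicit false

namespace Pool.Agent.H76.Ker

open Monoid Finset

universe u

/-- Exponent sum of `t_i`. -/
abbrev expo (G : Type u) [Group G] (n : ℕ) (i : Fin n) : WG G n →* Multiplicative ℤ :=
  Coprod.lift (1 : G →* Multiplicative ℤ)
    (FreeGroup.lift (fun k : Fin n => if k = i then Multiplicative.ofAdd (1 : ℤ) else 1))

theorem fox_one {G : Type u} [Group G] {n : ℕ} {S : Type*} [CommRing S] (w : WG G n) (i : Fin n) :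
    (fox (1 : WG G n →* Sˣ) w).t i = ((Multiplicative.toAdd (expo G n i w) : ℤ) : S) := by
  let f : Aff S (Fin n → S) →* Sˣ := Aff.lin
  let g : WG G n →* Aff S (Fin n → S) :=
    { toFun := fun w => ⟨fun i => ((Multiplicative.toAdd (expo G n i w) : ℤ) : S), 1⟩
      map_one' := by
        ext
        · simp
        · simp
      map_mul' := fun a b => by
        ext
        · simp
        · simp }
  have : fox (1 : WG G n →* Sˣ) = g := by
    refine hom_ext_wg ?_ ?_
    · intro a
      ext
      · simp [fox, g]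
      · simp [fox, g]
    · intro k
      ext j
      · by_cases h : k = j
        · subst h; simp [fox, g]
        · simp [fox, g, h, Ne.symm h]
      · simp [fox, g]
  rw [this]
  rfl

section

variable {Γ : Type u} [Group Γ] {n : ℕ}

/-- The lattice. -/
abbrev Lat (n : ℕ) : Type := (Unit ⊕ Fin n) → ℤ

/-- Abelianised position of a word. -/
def abw (κ : Γ →* Multiplicative ℤ) : WG Γ n →* Multiplicative (Lat n) :=
  Coprod.lift
    { toFun := fun γ => Multiplicative.ofAdd (Pi.single (Sum.inl ()) (Multiplicative.toAdd (κ γ)))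
      map_one' := by simp
      map_mul' := fun a b => by
        rw [map_mul, toAdd_mul, Pi.single_add, ofAdd_add] }
    (FreeGroup.lift (fun k : Fin n => Multiplicative.ofAdd (Pi.single (Sum.inr k) 1)))

theorem abw_inl (κ : Γ →* Multiplicative ℤ) (γ : Γ) :
    abw (n := n) κ (Coprod.inl γ)
      = Multiplicative.ofAdd (Pi.single (Sum.inl ()) (Multiplicative.toAdd (κ γ))) := by
  simp [abw]

theorem abw_tv (κ : Γ →* Multiplicative ℤ) (k : Fin n) :
    abw κ (tv Γ k) = Multiplicative.ofAdd (Pi.single (Sum.inr k) 1) := by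
  simp [abw]

theorem abw_inr (κ : Γ →* Multiplicative ℤ) (w : WG Γ n) (i : Fin n) :
    Multiplicative.toAdd (abw κ w) (Sum.inr i) = Multiplicative.toAdd (expo Γ n i w) := by
  let f : WG Γ n →* Multiplicative ℤ :=
    (AddMonoidHom.toMultiplicative (Pi.evalAddMonoidHom (fun _ : Unit ⊕ Fin n => ℤ) (Sum.inr i))).comp
      (abw κ)
  have : f = expo Γ n i := by
    refine hom_ext_wg ?_ ?_
    · intro a
      simp [f, abw_inl]
    · intro k
      by_cases h : k = i
      · subst h; simp [f, abw_tv]
      · simp [f, abw_tv, h, Ne.symm h]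
  rw [← this]
  rfl

/-- The relation matrix: columns `p e_0` and the positions of the relators. -/
def relMat (κ : Γ →* Multiplicative ℤ) (p : ℕ) (w : Fin n → WG Γ n) :
    Matrix (Unit ⊕ Fin n) (Unit ⊕ Fin n) ℤ :=
  Matrix.fromBlocks (Matrix.of fun _ _ => (p : ℤ))
    (Matrix.of fun _ j => Multiplicative.toAdd (abw κ (w j)) (Sum.inl ())) 0
    (Matrix.of fun i j => Multiplicative.toAdd (expo Γ n i (w j)))

theorem relMat_det (κ : Γ →* Multiplicative ℤ) (p : ℕ) (w : Fin n → WG Γ n) :
    (relMat κ p w).det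
      = p * (Matrix.of fun i j => Multiplicative.toAdd (expo Γ n i (w j))).det := by
  rw [relMat, Matrix.det_fromBlocks_zero₂₁]
  congr 1
  simp

theorem relMat_inl (κ : Γ →* Multiplicative ℤ) (p : ℕ) (w : Fin n → WG Γ n) :
    (relMat κ p w).mulVec (Pi.single (Sum.inl ()) 1) = Pi.single (Sum.inl ()) (p : ℤ) := by
  ext a
  rw [Matrix.mulVec_single_one]
  rcases a with a | a
  · simp [relMat]
  · simp [relMat]

theorem relMat_inr (κ : Γ →* Multiplicative ℤ) (p : ℕ) (w : Fin n → WG Γ n) (j : Fin n) :
    (relMat κ p w).mulVec (Pi.single (Sum.inr j) 1) = Multiplicative.toAdd (abw κ (w j)) := by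
  ext a
  rw [Matrix.mulVec_single_one]
  rcases a with a | a
  · simp [relMat]
  · simp [relMat, abw_inr]

/-- The quotient lattice. -/
theorem card_quot (κ : Γ →* Multiplicative ℤ) (p : ℕ) (hp : p ≠ 0) (w : Fin n → WG Γ n)
    (hdet : (Matrix.of fun i j => Multiplicative.toAdd (expo Γ n i (w j))).det ≠ 0) :
    Nat.card (Lat n ⧸ LinearMap.range (Matrix.toLin' (relMat κ p w)))
      = p * ((Matrix.of fun i j => Multiplicative.toAdd (expo Γ n i (w j))).det).natAbs := by
  have hd : (relMat κ p w).det ≠ 0 := by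
    rw [relMat_det]
    exact mul_ne_zero (Nat.cast_ne_zero.mpr hp) hdet
  have hinj : Function.Injective (Matrix.toLin' (relMat κ p w)) := by
    have := Matrix.mulVec_injective_of_det_ne_zero hd
    exact this
  rw [← Submodule.natAbs_det_equiv _ (LinearEquiv.ofInjective _ hinj)]
  have : (LinearMap.range (Matrix.toLin' (relMat κ p w))).subtype ∘ₗ
      AddMonoidHom.toIntLinearMap
        ((LinearEquiv.ofInjective (Matrix.toLin' (relMat κ p w)) hinj : Lat n →+ _))
      = Matrix.toLin' (relMat κ p w) := by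
    ext x
    rfl
  rw [this, LinearMap.det_toLin', relMat_det, Int.natAbs_mul, Int.natAbs_natCast]

end

end Pool.Agent.H76.Ker
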