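import Pool.Agent.H76.Ker.GoodChar

/-! Existence of a character of `p`-power order with nonsingular Fox matrix. -/

set_option autoImplicit false

namespace Pool.Agent.H76.Ker

open Monoid Finset

universe u

/-- The `p`-part of a finite abelian group of order `p^(v+1) * m`. -/
theorem ppart {A : Type*} [AddCommGroup A] [Finite A] (p v m : ℕ) (hp : p.Prime) (hm : ¬ p ∣ m)
    (hA : Nat.card A = p ^ (v + 1) * m) :
    (∀ x : (nsmulAddMonoidHom (α := A) m).range, p ^ (v + 1) • x = 0) ∧
      p ^ (v + 1) ∣ Nat.card (nsmulAddMonoidHom (α := A) m).range := by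
  classical
  constructor
  · rintro ⟨x, y, rfl⟩
    apply Subtype.ext
    show p ^ (v + 1) • (m • y) = 0
    rw [smul_smul, ← hA]
    exact card_nsmul_eq_zero'
  · set μ := nsmulAddMonoidHom (α := A) m with hμ
    have h1 : Nat.card A = Nat.card μ.ker * Nat.card μ.range := by
      have h2 := AddSubgroup.card_eq_card_quotient_mul_card_addSubgroup μ.ker
      rw [h2, Nat.card_congr (QuotientAddGroup.quotientKerEquivRange μ).toEquiv, mul_comm]
    have hcop : ¬ p ∣ Nat.card μ.ker := by
      intro hd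
      have := Fact.mk hp
      obtain ⟨x, hx⟩ := exists_prime_addOrderOf_dvd_card' p hd
      have h3 : m • x = 0 := by
        apply Subtype.ext
        have : m • (x : A) = 0 := x.2
        exact this
      have := addOrderOf_dvd_of_nsmul_eq_zero h3
      rw [hx] at this
      exact hm this
    have h4 : p ^ (v + 1) ∣ Nat.card μ.ker * Nat.card μ.range := by
      rw [← h1, hA]
      exact dvd_mul_right _ _
    exact (Nat.Coprime.pow_left _ ((Nat.Prime.coprime_iff_not_dvd hp).mpr hcop)).dvd_of_dvd_mul_left h4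

variable {Γ : Type u} [Group Γ] {n : ℕ}

theorem good_char (κ : Γ →* Multiplicative ℤ) (p : ℕ) (hp : p.Prime) (w : Fin n → WG Γ n)
    (hdet : (Matrix.of fun i j => Multiplicative.toAdd (expo Γ n i (w j))).det ≠ 0) :
    ∃ (f : ℕ) (χ : WG Γ n →* ℂˣ) (ζ : ℂ), (∀ a, χ a ^ (p ^ (f + 1)) = 1) ∧ (∀ j, χ (w j) = 1) ∧
      IsPrimitiveRoot ζ p ∧
      (∀ γ, ((χ (Coprod.inl γ) : ℂˣ) : ℂ) = ζ ^ (Multiplicative.toAdd (κ γ))) ∧
      (Matrix.of (fun j i => (fox χ (w j)).t i)).det ≠ 0 := by
  classical
  set E : Matrix (Fin n) (Fin n) ℤ :=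
    Matrix.of fun i j => Multiplicative.toAdd (expo Γ n i (w j)) with hE
  set R := LinearMap.range (Matrix.toLin' (relMat κ p w)) with hR
  have hD0 : E.det.natAbs ≠ 0 := Int.natAbs_ne_zero.mpr hdet
  obtain ⟨v, m, hm, hvm⟩ := Nat.exists_eq_pow_mul_and_not_dvd hD0 p hp.ne_one
  have hcard : Nat.card (Lat n ⧸ R) = p ^ (v + 1) * m := by
    rw [card_quot κ p hp.ne_zero w hdet, hvm]
    ring
  have hm0 : m ≠ 0 := by
    rintro rfl
    exact hm (dvd_zero _)
  have hfin : Finite (Lat n ⧸ R) := by
    apply Nat.finite_of_card_ne_zero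
    rw [hcard]
    exact mul_ne_zero (pow_ne_zero _ hp.ne_zero) hm0
  obtain ⟨hP1, hP2⟩ := ppart p v m hp hm hcard
  set μ := nsmulAddMonoidHom (α := Lat n ⧸ R) m with hμ
  -- the projection to the `p`-part
  let π0 : Lat n →+ μ.range := μ.rangeRestrict.comp R.mkQ.toAddMonoidHom
  have hπ0 : Function.Surjective π0 :=
    μ.rangeRestrict_surjective.comp (Submodule.mkQ_surjective R)
  have hπ0R : ∀ x, π0 ((relMat κ p w).mulVec x) = 0 := by
    intro x
    have : R.mkQ ((relMat κ p w).mulVec x) = 0 := by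
      rw [Submodule.mkQ_apply, Submodule.Quotient.mk_eq_zero]
      exact ⟨x, rfl⟩
    show μ.rangeRestrict (R.mkQ ((relMat κ p w).mulVec x)) = 0
    rw [this, map_zero]
  let s : μ.range := π0 (Pi.single (Sum.inl ()) 1)
  let b : Fin n → μ.range := fun i => π0 (Pi.single (Sum.inr i) 1)
  have hs : p • s = 0 := by
    have := hπ0R (Pi.single (Sum.inl ()) 1)
    rw [relMat_inl] at this
    rw [← map_nsmul]
    have h2 : p • (Pi.single (Sum.inl ()) (1 : ℤ) : Lat n) = Pi.single (Sum.inl ()) (p : ℤ) := by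
      rw [← Pi.single_smul]
      simp
    rw [h2, this]
  have hgen : AddSubgroup.closure (insert s (Set.range b)) = ⊤ := by
    rw [eq_top_iff]
    intro x _
    obtain ⟨y, rfl⟩ := hπ0 x
    have hy : y = ∑ a, y a • (Pi.single a 1 : Lat n) := by
      ext a
      simp [Finset.sum_apply, Pi.single_apply]
    rw [hy, map_sum]
    apply AddSubgroup.sum_mem
    intro a _
    rw [map_zsmul]
    apply AddSubgroup.zsmul_mem
    apply AddSubgroup.subset_closure
    rcases a with a | a
    · left; rfl
    · right; exact ⟨a, rfl⟩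
  let π : WG Γ n →* Multiplicative μ.range := (AddMonoidHom.toMultiplicative π0).comp (abw κ)
  have hπw : ∀ j, π (w j) = 1 := by
    intro j
    have := hπ0R (Pi.single (Sum.inr j) 1)
    rw [relMat_inr] at this
    exact congrArg Multiplicative.ofAdd this
  have hπinl : ∀ γ, Multiplicative.toAdd (π (Coprod.inl γ)) = (Multiplicative.toAdd (κ γ)) • s := by
    intro γ
    show π0 (Multiplicative.toAdd (abw κ (Coprod.inl γ))) = _
    rw [abw_inl, toAdd_ofAdd, ← map_zsmul, ← Pi.single_smul]
    simp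
  have hπtv : ∀ i, Multiplicative.toAdd (π (tv Γ i)) = b i := by
    intro i
    show π0 (Multiplicative.toAdd (abw κ (tv Γ i))) = _
    rw [abw_tv, toAdd_ofAdd]
  let S := AddMonoidAlgebra ℤ μ.range
  let U : WG Γ n →* Sˣ := (MonoidHom.toHomUnits (AddMonoidAlgebra.of ℤ μ.range)).comp π
  have hU : ∀ a, ((U a : Sˣ) : S) = AddMonoidAlgebra.single (Multiplicative.toAdd (π a)) 1 := by
    intro a
    show AddMonoidAlgebra.of ℤ μ.range (π a) = _
    rw [AddMonoidAlgebra.of_apply]
  have hUw : ∀ j, U (w j) = 1 := by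
    intro j
    apply Units.ext
    rw [hU, hπw, toAdd_one, Units.val_one, AddMonoidAlgebra.one_def]
  set D : Matrix (Fin n) (Fin n) S := Matrix.of (fun j i => (fox U (w j)).t i) with hD
  set z : S := D.det with hz
  -- augmentation
  have haug : aug μ.range z = E.det := by
    have h1 : aug μ.range z = (D.map (aug μ.range)).det := by
      rw [hz]
      exact RingHom.map_det (aug μ.range : S →+* ℤ) D
    rw [h1, ← Matrix.det_transpose E]
    congr 1
    ext j i
    have h2 := fox_map (aug μ.range : S →+* ℤ) U (w j) i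
    have h3 : (Units.map ((aug μ.range : S →+* ℤ) : S →* ℤ)).comp U = 1 := by
      refine MonoidHom.ext fun a => Units.ext ?_
      show aug μ.range ((U a : Sˣ) : S) = 1
      rw [hU]
      simp [aug, AddMonoidAlgebra.lift_apply]
    rw [h3, fox_one] at h2
    simp only [Matrix.map_apply, Matrix.transpose_apply, hE, Matrix.of_apply, hD]
    rw [← AlgHom.coe_toRingHom, ← h2]
    simp
  -- modulo `s - 1`
  have hmod : ∀ i, ∃ y, (AddMonoidAlgebra.single (b i) 1 - 1) * z
      = y * (AddMonoidAlgebra.single s 1 - 1 : S) := by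
    intro i
    let I : Ideal S := Ideal.span {(AddMonoidAlgebra.single s 1 - 1 : S)}
    let φ : S →+* S ⧸ I := Ideal.Quotient.mk I
    have hφs : φ (AddMonoidAlgebra.single s 1) = 1 := by
      have : φ (AddMonoidAlgebra.single s 1 - 1) = 0 :=
        Ideal.Quotient.eq_zero_iff_mem.mpr (Ideal.subset_span rfl)
      rw [map_sub, map_one, sub_eq_zero] at this
      exact this
    let U' : WG Γ n →* (S ⧸ I)ˣ := (Units.map (φ : S →* S ⧸ I)).comp U
    have hφns : ∀ k : ℕ, φ (AddMonoidAlgebra.single (k • s) 1) = 1 := by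
      intro k
      have : (AddMonoidAlgebra.single (k • s) 1 : S) = (AddMonoidAlgebra.single s 1) ^ k := by
        rw [AddMonoidAlgebra.single_pow, one_pow]
      rw [this, map_pow, hφs, one_pow]
    have hφzs : ∀ k : ℤ, φ (AddMonoidAlgebra.single (k • s) 1) = 1 := by
      intro k
      obtain ⟨m, rfl | rfl⟩ := k.eq_nat_or_neg
      · rw [natCast_zsmul]; exact hφns m
      · have h1 := hφns m
        have h2 : (AddMonoidAlgebra.single (m • s) 1 : S)
            * AddMonoidAlgebra.single ((-(m : ℤ)) • s) 1 = 1 := by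
          rw [AddMonoidAlgebra.single_mul_single, neg_smul, natCast_zsmul, add_neg_cancel, one_mul,
            AddMonoidAlgebra.one_def]
        have h3 := congrArg φ h2
        rw [map_mul, h1, one_mul, map_one] at h3
        exact h3
    have hU'G : ∀ g : Γ, U' (Coprod.inl g) = 1 := by
      intro g
      apply Units.ext
      show φ ((U (Coprod.inl g) : Sˣ) : S) = 1
      rw [hU, hπinl]
      exact hφzs _
    have hfund : ∀ j, ∑ k, φ (D j k) * (φ (AddMonoidAlgebra.single (b k) 1 - 1)) = 0 := by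
      intro j
      have h1 := fox_fund U' hU'G (w j)
      have h2 : U' (w j) = 1 := by
        show (Units.map (φ : S →* S ⧸ I)) (U (w j)) = 1
        rw [hUw, map_one]
      rw [h2, Units.val_one, sub_self] at h1
      rw [← h1]
      apply Finset.sum_congr rfl
      intro k _
      rw [fox_map φ U (w j) k]
      congr 1
      show φ (AddMonoidAlgebra.single (b k) 1 - 1) = φ ((U (tv Γ k) : Sˣ) : S) - 1
      rw [hU, hπtv, map_sub, map_one]
    have hadj : (D.map φ).det • (fun k => φ (AddMonoidAlgebra.single (b k) 1 - 1))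
        = (0 : Fin n → S ⧸ I) := by
      have h1 : (D.map φ).mulVec (fun k => φ (AddMonoidAlgebra.single (b k) 1 - 1)) = 0 := by
        ext j
        exact hfund j
      have h2 : (D.map φ).adjugate.mulVec
          ((D.map φ).mulVec (fun k => φ (AddMonoidAlgebra.single (b k) 1 - 1))) = 0 := by
        rw [h1, Matrix.mulVec_zero]
      rw [Matrix.mulVec_mulVec, Matrix.adjugate_mul, Matrix.smul_mulVec, Matrix.one_mulVec] at h2
      exact h2
    have h3 := congr_fun hadj i
    simp only [Pi.smul_apply, smul_eq_mul, Pi.zero_apply] at h3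
    have h4 : (D.map φ).det = φ z := by
      rw [hz, RingHom.map_det]
      rfl
    rw [h4, ← map_mul, Ideal.Quotient.eq_zero_iff_mem, Ideal.mem_span_singleton'] at h3
    obtain ⟨y, hy⟩ := h3
    exact ⟨y, by rw [hy, mul_comm]⟩
  -- a good character exists
  have hex : ∃ ψ : AddChar μ.range ℂ, evc ψ ((AddMonoidAlgebra.single s 1 - 1) * z) ≠ 0 := by
    by_contra hcon
    push Not at hcon
    have h0 := char_sep _ hcon
    obtain ⟨c, hc⟩ := norm_arg p hp.ne_zero s hs b hgen z h0 hmod
    rw [haug] at hc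
    have h1 : (p ^ (v + 1) : ℤ) ∣ E.det := by
      rw [hc]
      refine Dvd.dvd.mul_left ?_ _
      exact_mod_cast hP2
    have h2 : p ^ (v + 1) ∣ E.det.natAbs := by
      rw [← Int.natCast_dvd]
      exact_mod_cast h1
    rw [hvm, pow_succ] at h2
    exact hm (Nat.dvd_of_mul_dvd_mul_left (pow_pos hp.pos v) h2)
  obtain ⟨ψ, hψ⟩ := hex
  rw [map_mul] at hψ
  have hψ1 : ψ s ≠ 1 := by
    intro h
    apply hψ
    rw [map_sub, map_one, evc_single, h]
    simp
  have hψz : evc ψ z ≠ 0 := right_ne_zero_of_mul hψ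
  let χ : WG Γ n →* ℂˣ := (MonoidHom.toHomUnits ψ.toMonoidHom).comp π
  have hχ : ∀ a, ((χ a : ℂˣ) : ℂ) = ψ (Multiplicative.toAdd (π a)) := fun a => rfl
  refine ⟨v, χ, ψ s, ?_, ?_, ?_, ?_, ?_⟩
  · intro a
    apply Units.ext
    rw [Units.val_pow_eq_pow_val, hχ, ← AddChar.map_nsmul_eq_pow, hP1, AddChar.map_zero_eq_one,
      Units.val_one]
  · intro j
    apply Units.ext
    rw [hχ, hπw, toAdd_one, AddChar.map_zero_eq_one, Units.val_one]
  · have h1 : ψ s ^ p = 1 := by
      rw [← AddChar.map_nsmul_eq_pow, hs, AddChar.map_zero_eq_one]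
    have := Fact.mk hp
    have h2 := orderOf_eq_prime h1 hψ1
    rw [← h2]
    exact IsPrimitiveRoot.orderOf _
  · intro γ
    rw [hχ, hπinl, AddChar.map_zsmul_eq_zpow]
  · have h1 : (Matrix.of (fun j i => (fox χ (w j)).t i)).det = evc ψ z := by
      have h2 : evc ψ z = (D.map (evc ψ)).det := by
        rw [hz]
        exact RingHom.map_det (evc ψ : S →+* ℂ) D
      rw [h2]
      congr 1
      ext j i
      have h3 := fox_map (evc ψ : S →+* ℂ) U (w j) i
      have h4 : (Units.map ((evc ψ : S →+* ℂ) : S →* ℂ)).comp U = χ := by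
        refine MonoidHom.ext fun a => Units.ext ?_
        show evc ψ ((U a : Sˣ) : S) = ((χ a : ℂˣ) : ℂ)
        rw [hU, hχ, evc_single]
        simp
      rw [h4] at h3
      exact h3
    rw [h1]
    exact hψz

end Pool.Agent.H76.Ker
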