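import Pool.Agent.H76.Ker.Lift

/-! Functoriality of `G * F_n` for injective maps, and reduction to finitely generated coefficient
groups. -/

set_option autoImplicit false

namespace Pool.Agent.H76.Ker

open Monoid

universe u v

section Inj

variable {Γ : Type u} {G : Type v} [Group Γ] [Group G] {n : ℕ}

section

variable (f : Γ →* G)

open Classical in
/-- A section of `G → G / f(Γ)` with value `1` at the base point. -/
noncomputable def sec (q : G ⧸ f.range) : G := if q = QuotientGroup.mk 1 then 1 else q.out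

theorem sec_mk (q : G ⧸ f.range) : (QuotientGroup.mk (sec f q) : G ⧸ f.range) = q := by
  unfold sec
  split_ifs with h
  · exact h.symm
  · exact QuotientGroup.out_eq' q

theorem sec_base : sec f (QuotientGroup.mk 1) = 1 := by simp [sec]

theorem kap_exists (g : G) (q : G ⧸ f.range) :
    ∃ γ : Γ, f γ = (sec f (g • q))⁻¹ * g * sec f q := by
  have h : (QuotientGroup.mk (sec f (g • q)) : G ⧸ f.range) = QuotientGroup.mk (g * sec f q) := by
    rw [sec_mk]
    conv_lhs => rw [← sec_mk f q]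
    rfl
  obtain ⟨γ, hγ⟩ := QuotientGroup.eq.mp h
  exact ⟨γ, by rw [hγ, mul_assoc]⟩

/-- The cocycle. -/
noncomputable def kap (g : G) (q : G ⧸ f.range) : Γ := (kap_exists f g q).choose

theorem kap_spec (g : G) (q : G ⧸ f.range) : f (kap f g q) = (sec f (g • q))⁻¹ * g * sec f q :=
  (kap_exists f g q).choose_spec

theorem kap_one (hf : Function.Injective f) (q : G ⧸ f.range) : kap f 1 q = 1 := by
  apply hf
  rw [kap_spec, one_smul, map_one]
  group

theorem kap_mul (hf : Function.Injective f) (g h : G) (q : G ⧸ f.range) :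
    kap f (g * h) q = kap f g (h • q) * kap f h q := by
  apply hf
  rw [map_mul, kap_spec, kap_spec, kap_spec, mul_smul]
  group

theorem kap_base (hf : Function.Injective f) (γ : Γ) : kap f (f γ) (QuotientGroup.mk 1) = γ := by
  apply hf
  have h : (f γ • (QuotientGroup.mk 1 : G ⧸ f.range)) = QuotientGroup.mk 1 := by
    change (QuotientGroup.mk (f γ * 1) : G ⧸ f.range) = QuotientGroup.mk 1
    rw [QuotientGroup.eq]
    simp
  rw [kap_spec, h, sec_base]
  group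

/-- The induced action. -/
noncomputable def indG (hf : Function.Injective f) (n : ℕ) :
    G →* Function.End ((G ⧸ f.range) × WG Γ n) where
  toFun g x := (g • x.1, Coprod.inl (kap f g x.1) * x.2)
  map_one' := by
    funext x
    change (_, _) = x
    rw [one_smul, kap_one f hf, map_one, one_mul]
  map_mul' g h := by
    funext x
    change (_, _) = (_, _)
    rw [mul_smul, kap_mul f hf, map_mul, mul_assoc]

/-- The action of the free factor. -/
noncomputable def indF (n : ℕ) :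
    FreeGroup (Fin n) →* Function.End ((G ⧸ f.range) × WG Γ n) where
  toFun y x := (x.1, Coprod.inr y * x.2)
  map_one' := by
    funext x
    change (_, _) = x
    rw [map_one, one_mul]
  map_mul' g h := by
    funext x
    change (_, _) = (_, _)
    rw [map_mul, mul_assoc]

theorem ind_base (hf : Function.Injective f) (x c : WG Γ n) :
    Coprod.lift (indG f hf n) (indF f n) (wmap n f x) (QuotientGroup.mk 1, c)
      = (QuotientGroup.mk 1, x * c) := by
  induction x using Coprod.induction_on generalizing c with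
  | inl γ =>
    rw [wmap_inl, Coprod.lift_apply_inl]
    change (f γ • (QuotientGroup.mk 1 : G ⧸ f.range), _) = _
    have h : (f γ • (QuotientGroup.mk 1 : G ⧸ f.range)) = QuotientGroup.mk 1 := by
      change (QuotientGroup.mk (f γ * 1) : G ⧸ f.range) = QuotientGroup.mk 1
      rw [QuotientGroup.eq]
      simp
    rw [h, kap_base f hf]
  | inr y => rfl
  | mul x y hx hy =>
    rw [map_mul, map_mul]
    change Coprod.lift (indG f hf n) (indF f n) (wmap n f x)
      (Coprod.lift (indG f hf n) (indF f n) (wmap n f y) (QuotientGroup.mk 1, c)) = _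
    rw [hy, hx, mul_assoc]

end

/-- `G * F_n` is functorial for injective maps. -/
theorem wmap_injective (f : Γ →* G) (hf : Function.Injective f) :
    Function.Injective (wmap n f) := by
  intro x y hxy
  have h1 := ind_base f hf x 1
  have h2 := ind_base f hf y 1
  rw [hxy, h2] at h1
  have := congrArg Prod.snd h1
  simpa using this.symm

end Inj

section FG

variable {G : Type u} [Group G] {n : ℕ}

theorem wmap_comp {Γ Γ' : Type*} [Group Γ] [Group Γ'] (f : Γ →* Γ') (g : Γ' →* G) (x : WG Γ n) :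
    wmap n g (wmap n f x) = wmap n (g.comp f) x := by
  have : (wmap n g).comp (wmap n f) = wmap n (g.comp f) :=
    hom_ext_wg (fun a => rfl) (fun i => rfl)
  exact DFunLike.congr_fun this x

theorem exists_fg (x : WG G n) : ∃ Γ : Subgroup G, Γ.FG ∧ x ∈ (wmap n Γ.subtype).range := by
  induction x using Coprod.induction_on with
  | inl g =>
    refine ⟨Subgroup.zpowers g, Subgroup.fg_iff _ |>.mpr ⟨{g}, ?_, Set.finite_singleton g⟩, ?_⟩
    · rw [Subgroup.zpowers_eq_closure]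
    · exact ⟨Coprod.inl ⟨g, Subgroup.mem_zpowers g⟩, rfl⟩
  | inr y => exact ⟨⊥, ⟨∅, by simp⟩, ⟨Coprod.inr y, rfl⟩⟩
  | mul x y hx hy =>
    obtain ⟨Γ, hΓ, x', hx'⟩ := hx
    obtain ⟨Δ, hΔ, y', hy'⟩ := hy
    refine ⟨Γ ⊔ Δ, hΓ.sup hΔ, wmap n (Subgroup.inclusion le_sup_left) x' *
      wmap n (Subgroup.inclusion le_sup_right) y', ?_⟩
    rw [map_mul, wmap_comp, wmap_comp, Subgroup.subtype_comp_inclusion,
      Subgroup.subtype_comp_inclusion, hx', hy']

theorem range_mono {Γ Δ : Subgroup G} (h : Γ ≤ Δ) :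
    (wmap n Γ.subtype).range ≤ (wmap n Δ.subtype).range := by
  rintro _ ⟨x, rfl⟩
  exact ⟨wmap n (Subgroup.inclusion h) x, by rw [wmap_comp, Subgroup.subtype_comp_inclusion]⟩

theorem local_rel (w : Fin n → WG G n) (Γ₀ : Subgroup G) (hΓ₀ : Γ₀.FG) (w₀ : Fin n → WG Γ₀ n)
    (hw : ∀ j, wmap n Γ₀.subtype (w₀ j) = w j) (x : WG G n)
    (hx : x ∈ Subgroup.normalClosure (Set.range w)) :
    ∃ Γ : Subgroup G, Γ.FG ∧ ∀ Δ : Subgroup G, Γ ≤ Δ → ∀ h0 : Γ₀ ≤ Δ,
      ∃ x₀ : WG Δ n, wmap n Δ.subtype x₀ = x ∧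
        x₀ ∈ Subgroup.normalClosure (Set.range fun j => wmap n (Subgroup.inclusion h0) (w₀ j)) := by
  induction hx using Subgroup.closure_induction with
  | mem x hx =>
    obtain ⟨_, ⟨j, rfl⟩, hconj⟩ := Group.mem_conjugatesOfSet_iff.mp hx
    obtain ⟨y, hy⟩ := isConj_iff.mp hconj
    obtain ⟨Γ, hΓ, hyΓ⟩ := exists_fg y
    refine ⟨Γ, hΓ, fun Δ h h0 => ?_⟩
    obtain ⟨y₀, hy₀⟩ := range_mono h hyΓ
    refine ⟨y₀ * wmap n (Subgroup.inclusion h0) (w₀ j) * y₀⁻¹, ?_, ?_⟩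
    · rw [map_mul, map_mul, map_inv, hy₀, wmap_comp, Subgroup.subtype_comp_inclusion, hw, hy]
    · refine (Subgroup.normalClosure_normal).conj_mem _ (Subgroup.subset_normalClosure ?_) _
      exact ⟨j, rfl⟩
  | one => exact ⟨Γ₀, hΓ₀, fun Δ _ h0 => ⟨1, map_one _, Subgroup.one_mem _⟩⟩
  | mul x y _ _ hx hy =>
    obtain ⟨Γ, hΓ, h1⟩ := hx
    obtain ⟨Γ', hΓ', h2⟩ := hy
    refine ⟨Γ ⊔ Γ', hΓ.sup hΓ', fun Δ h h0 => ?_⟩
    obtain ⟨x₀, hx₀, hx₀'⟩ := h1 Δ (le_sup_left.trans h) h0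
    obtain ⟨y₀, hy₀, hy₀'⟩ := h2 Δ (le_sup_right.trans h) h0
    exact ⟨x₀ * y₀, by rw [map_mul, hx₀, hy₀], Subgroup.mul_mem _ hx₀' hy₀'⟩
  | inv x _ hx =>
    obtain ⟨Γ, hΓ, h1⟩ := hx
    refine ⟨Γ, hΓ, fun Δ h h0 => ?_⟩
    obtain ⟨x₀, hx₀, hx₀'⟩ := h1 Δ h h0
    exact ⟨x₀⁻¹, by rw [map_inv, hx₀], Subgroup.inv_mem _ hx₀'⟩

theorem exists_fg_w (w : Fin n → WG G n) :
    ∃ Γ : Subgroup G, Γ.FG ∧ ∀ j, w j ∈ (wmap n Γ.subtype).range := by
  choose Γ hΓ hw using fun j => exists_fg (w j)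
  have key : ∀ s : Finset (Fin n), ∃ Δ : Subgroup G, Δ.FG ∧ ∀ j ∈ s, Γ j ≤ Δ := by
    intro s
    induction s using Finset.induction_on with
    | empty => exact ⟨⊥, ⟨∅, by simp⟩, by simp⟩
    | insert j s _ ih =>
      obtain ⟨Δ, hΔ, h⟩ := ih
      refine ⟨Γ j ⊔ Δ, (hΓ j).sup hΔ, fun i hi => ?_⟩
      rcases Finset.mem_insert.mp hi with rfl | hi
      · exact le_sup_left
      · exact (h i hi).trans le_sup_right
  obtain ⟨Δ, hΔ, h⟩ := key Finset.univ
  exact ⟨Δ, hΔ, fun j => range_mono (h j (Finset.mem_univ j)) (hw j)⟩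

theorem exists_fg_list (l : List (WG G n × G)) :
    ∃ Γ : Subgroup G, Γ.FG ∧ ∀ y ∈ l, y.1 ∈ (wmap n Γ.subtype).range ∧ y.2 ∈ Γ := by
  induction l with
  | nil => exact ⟨⊥, ⟨∅, by simp⟩, by simp⟩
  | cons y l ih =>
    obtain ⟨Γ, hΓ, h⟩ := ih
    obtain ⟨Δ, hΔ, hy⟩ := exists_fg y.1
    refine ⟨Γ ⊔ (Δ ⊔ Subgroup.zpowers y.2), hΓ.sup (hΔ.sup
      ((Subgroup.fg_iff _).mpr ⟨{y.2}, (Subgroup.zpowers_eq_closure _).symm,
        Set.finite_singleton _⟩)), fun z hz => ?_⟩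
    rcases List.mem_cons.mp hz with rfl | hz
    · exact ⟨range_mono (le_sup_left.trans le_sup_right) hy,
        (le_sup_right.trans (le_sup_right (a := Γ))) (Subgroup.mem_zpowers _)⟩
    · exact ⟨range_mono le_sup_left (h z hz).1, (le_sup_left : Γ ≤ _) (h z hz).2⟩

/-- A relation over `G` already holds over a finitely generated subgroup. -/
theorem fg_reduction (w : Fin n → WG G n) (l : List (WG G n × G))
    (hl : pc Coprod.inl l ∈ Subgroup.normalClosure (Set.range w)) :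
    ∃ Γ : Subgroup G, Γ.FG ∧ ∃ (w₀ : Fin n → WG Γ n) (l₀ : List (WG Γ n × Γ)),
      (∀ j, wmap n Γ.subtype (w₀ j) = w j) ∧
      l₀.map (fun y => (wmap n Γ.subtype y.1, (y.2 : G))) = l ∧
      pc Coprod.inl l₀ ∈ Subgroup.normalClosure (Set.range w₀) := by
  obtain ⟨Γ₀, hΓ₀, hw⟩ := exists_fg_w w
  choose w₀ hw₀ using hw
  obtain ⟨Γ₁, hΓ₁, h1⟩ := local_rel w Γ₀ hΓ₀ w₀ hw₀ _ hl
  obtain ⟨Γ₂, hΓ₂, h2⟩ := exists_fg_list l
  set Δ := Γ₀ ⊔ (Γ₁ ⊔ Γ₂) with hΔ
  have h0 : Γ₀ ≤ Δ := le_sup_left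
  obtain ⟨x₀, hx₀, hx₀'⟩ := h1 Δ (le_sup_left.trans le_sup_right) h0
  have h3 : ∃ l₀ : List (WG Δ n × Δ), l₀.map (fun y => (wmap n Δ.subtype y.1, (y.2 : G))) = l := by
    have hle : Γ₂ ≤ Δ := le_sup_right.trans le_sup_right
    clear hl h1 hx₀ hx₀'
    induction l with
    | nil => exact ⟨[], rfl⟩
    | cons y l ih =>
      obtain ⟨l₀, hl₀⟩ := ih (fun z hz => h2 z (List.mem_cons_of_mem _ hz))
      obtain ⟨⟨y₀, hy₀⟩, hy2⟩ := h2 y List.mem_cons_self
      refine ⟨(wmap n (Subgroup.inclusion hle) y₀, ⟨y.2, hle hy2⟩) :: l₀, ?_⟩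
      rw [List.map_cons, hl₀, wmap_comp, Subgroup.subtype_comp_inclusion, hy₀]
  obtain ⟨l₀, hl₀⟩ := h3
  refine ⟨Δ, hΓ₀.sup (hΓ₁.sup hΓ₂), fun j => wmap n (Subgroup.inclusion h0) (w₀ j), l₀, fun j => ?_,
    hl₀, ?_⟩
  · rw [wmap_comp, Subgroup.subtype_comp_inclusion, hw₀]
  · have h4 : pc Coprod.inl l₀ = x₀ := by
      apply wmap_injective Δ.subtype Subtype.val_injective
      rw [hx₀, pc_map (Coprod.inl) (Coprod.inl) (wmap n Δ.subtype) Δ.subtype (fun _ => rfl)]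
      exact congrArg _ hl₀
    rw [h4]
    exact hx₀'

end FG

end Pool.Agent.H76.Ker
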