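import Pool.Agent.H76.GR.Rep
import Pool.Agent.H76.Ker.Inj

/-! Consequences of the Gerstenhaber–Rothaus theorem for finite coefficient groups. -/

set_option autoImplicit false
set_option linter.unusedSectionVars false

namespace Pool.Agent.H76.Ker

open Monoid Pool.Agent.H76.GR
open scoped Matrix.Norms.L2Operator

section GA

variable (Γ : Type*) [Group Γ] [Fintype Γ] [DecidableEq Γ]

/-- Matrices commuting with right translations: a copy of the group algebra. -/
noncomputable def GA : StarSubalgebra ℂ (Matrix Γ Γ ℂ) where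
  carrier := {T | ∀ h x y, T (x * h) (y * h) = T x y}
  mul_mem' := by
    intro S T hS hT h x y
    rw [Matrix.mul_apply, Matrix.mul_apply]
    refine (Fintype.sum_equiv (Equiv.mulRight h) _ _ fun z => ?_).symm
    simp only [Equiv.coe_mulRight]
    rw [hS, hT]
  add_mem' := by
    intro S T hS hT h x y
    rw [Matrix.add_apply, Matrix.add_apply, hS, hT]
  algebraMap_mem' := by
    intro r h x y
    rw [Matrix.algebraMap_matrix_apply, Matrix.algebraMap_matrix_apply]
    simp
  star_mem' := by
    intro T hT h x y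
    rw [Matrix.star_apply, Matrix.star_apply, hT]

theorem mem_GA {T : Matrix Γ Γ ℂ} : T ∈ GA Γ ↔ ∀ h x y, T (x * h) (y * h) = T x y := Iff.rfl

instance GA_closed : IsClosed (GA Γ : Set (Matrix Γ Γ ℂ)) :=
  ((GA Γ).toSubalgebra.toSubmodule).closed_of_finiteDimensional

noncomputable instance GA_cstar : CStarAlgebra (GA Γ) := StarSubalgebra.cstarAlgebra (GA Γ)

instance GA_fd : FiniteDimensional ℂ (GA Γ) :=
  inferInstanceAs (FiniteDimensional ℂ ((GA Γ).toSubalgebra.toSubmodule))

/-- The trace. -/
noncomputable def gaTr : GA Γ →ₗ[ℝ] ℝ :=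
  (reTr Γ).comp ((GA Γ).toSubalgebra.toSubmodule.subtype.restrictScalars ℝ)

theorem gaTr_isTr : IsTr (gaTr Γ) := by
  refine ⟨fun x y => (reTr_isTr Γ).comm _ _, fun x hx => (reTr_isTr Γ).pos _ ?_⟩
  intro h
  exact hx (Subtype.ext h)

variable {Γ}

/-- Left translation as a matrix. -/
noncomputable def lam (g : Γ) : Matrix Γ Γ ℂ := fun x y => if x = g * y then 1 else 0

theorem lam_one : lam (1 : Γ) = 1 := by
  ext x y
  simp [lam, Matrix.one_apply]

theorem lam_mul (g h : Γ) : lam (g * h) = lam g * lam h := by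
  ext x y
  rw [Matrix.mul_apply, Finset.sum_eq_single (h * y)]
  · simp [lam, mul_assoc]
  · intro z _ hz
    simp [lam, hz]
  · simp

theorem lam_star (g : Γ) : star (lam g) = lam g⁻¹ := by
  ext x y
  rw [Matrix.star_apply]
  simp only [lam]
  rw [apply_ite star, star_one, star_zero]
  congr 1
  exact propext (by rw [eq_inv_mul_iff_mul_eq]; exact eq_comm)

theorem lam_mem (g : Γ) : lam g ∈ GA Γ := by
  intro h x y
  simp only [lam]
  congr 1
  rw [← mul_assoc, mul_left_inj]

/-- The regular representation with values in the group algebra. -/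
noncomputable def lamU : Γ →* unitary (GA Γ) where
  toFun g := ⟨⟨lam g, lam_mem g⟩, by
    rw [Unitary.mem_iff]
    constructor
    · apply Subtype.ext
      change star (lam g) * lam g = 1
      rw [lam_star, ← lam_mul, inv_mul_cancel, lam_one]
    · apply Subtype.ext
      change lam g * star (lam g) = 1
      rw [lam_star, ← lam_mul, mul_inv_cancel, lam_one]⟩
  map_one' := Subtype.ext (Subtype.ext lam_one)
  map_mul' g h := Subtype.ext (Subtype.ext (lam_mul g h))

theorem lamU_val (g : Γ) : (((lamU g : unitary (GA Γ)) : GA Γ) : Matrix Γ Γ ℂ) = lam g := rfl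

theorem lamU_injective : Function.Injective (lamU : Γ →* unitary (GA Γ)) := by
  intro g h hgh
  have h1 : lam g = lam h := by rw [← lamU_val, hgh, lamU_val]
  have h2 : lam g g 1 = lam h g 1 := by rw [h1]
  by_contra hne
  simp [lam, hne] at h2

theorem GA_expand {T : Matrix Γ Γ ℂ} (hT : T ∈ GA Γ) (x y : Γ) : T x y = T (x * y⁻¹) 1 := by
  have := hT y (x * y⁻¹) 1
  simpa using this

/-- Central elements of the group are central in the group algebra. -/
theorem lamU_central (z : Γ) (hz : ∀ g, g * z = z * g) (T : unitary (GA Γ)) :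
    T * lamU z = lamU z * T := by
  apply Subtype.ext
  apply Subtype.ext
  change ((T : GA Γ) : Matrix Γ Γ ℂ) * lam z = lam z * ((T : GA Γ) : Matrix Γ Γ ℂ)
  have hT := (T : GA Γ).2
  set S := ((T : GA Γ) : Matrix Γ Γ ℂ) with hS
  ext x y
  rw [Matrix.mul_apply, Matrix.mul_apply, Finset.sum_eq_single (z * y),
    Finset.sum_eq_single (z⁻¹ * x)]
  · rw [GA_expand hT, GA_expand hT (z⁻¹ * x)]
    simp only [lam, if_true, mul_one]
    rw [if_pos (by group), one_mul]
    congr 1
    have h1 := hz (x * y⁻¹ * z⁻¹)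
    have h3 : x * y⁻¹ = z * (x * y⁻¹ * z⁻¹) := by rw [← h1]; group
    have h4 : z⁻¹ * x * y⁻¹ = z⁻¹ * (x * y⁻¹) := by group
    have h5 : x * (z * y)⁻¹ = x * y⁻¹ * z⁻¹ := by group
    rw [h4, h5, eq_inv_mul_iff_mul_eq]
    exact h3.symm
  · intro b _ hb
    have : ¬ x = z * b := by
      intro h
      apply hb
      rw [h]
      group
    simp [lam, this]
  · simp
  · intro b _ hb
    simp [lam, hb]
  · simp

open Classical in
/-- The class functional. -/
noncomputable def clsF (c : Γ) (T : Matrix Γ Γ ℂ) : ℂ :=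
  ∑ g : Γ, if IsConj c g then T g 1 else 0

open Classical in
theorem clsF_lam (c g : Γ) : clsF c (lam g) = if IsConj c g then 1 else 0 := by
  unfold clsF
  rw [Finset.sum_eq_single g]
  · simp [lam]
  · intro b _ hb
    simp [lam, hb]
  · simp

open Classical in
theorem clsF_comm (c : Γ) {S T : Matrix Γ Γ ℂ} (hS : S ∈ GA Γ) (hT : T ∈ GA Γ) :
    clsF c (S * T) = clsF c (T * S) := by
  have key : ∀ {S T : Matrix Γ Γ ℂ}, S ∈ GA Γ → T ∈ GA Γ →
      clsF c (S * T) = ∑ a : Γ, ∑ b : Γ, if IsConj c (a * b) then S a 1 * T b 1 else 0 := by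
    intro S T hS hT
    unfold clsF
    have h1 : ∀ g : Γ, (if IsConj c g then (S * T) g 1 else 0)
        = ∑ b : Γ, if IsConj c g then S (g * b⁻¹) 1 * T b 1 else 0 := by
      intro g
      split_ifs with h
      · rw [Matrix.mul_apply]
        refine Finset.sum_congr rfl fun b _ => ?_
        rw [GA_expand hS]
      · simp
    simp only [h1]
    rw [Finset.sum_comm]
    rw [Finset.sum_comm (s := Finset.univ) (t := Finset.univ)
      (f := fun a b => if IsConj c (a * b) then S a 1 * T b 1 else 0)]
    refine Finset.sum_congr rfl fun b _ => ?_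
    refine Fintype.sum_equiv (Equiv.mulRight b⁻¹) _ _ fun g => ?_
    simp
  rw [key hS hT, key hT hS, Finset.sum_comm]
  refine Finset.sum_congr rfl fun a _ => Finset.sum_congr rfl fun b _ => ?_
  have : IsConj c (b * a) ↔ IsConj c (a * b) := by
    have h : IsConj (b * a) (a * b) := isConj_iff.mpr ⟨a, by group⟩
    exact ⟨fun h' => h'.trans h, fun h' => h'.trans h.symm⟩
  simp only [this, mul_comm]

/-- Elements of the group that are conjugate in the unitary group of the group algebra are
conjugate. -/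
theorem lamU_conj (a b : Γ) (T : unitary (GA Γ)) (h : T * lamU a * T⁻¹ = lamU b) : IsConj a b := by
  classical
  have h1 : T * lamU a = lamU b * T := by rw [← h]; group
  have h2 : T⁻¹ * (T * lamU a) = lamU a := by group
  have h3 : (T * lamU a) * T⁻¹ = lamU b := h
  have h4 : clsF b (lam a) = clsF b (lam b) := by
    have h5 : ((((T⁻¹ * (T * lamU a) : unitary (GA Γ)) : GA Γ)) : Matrix Γ Γ ℂ) = lam a := by
      rw [h2, lamU_val]
    have h6 : (((((T * lamU a) * T⁻¹ : unitary (GA Γ)) : GA Γ)) : Matrix Γ Γ ℂ) = lam b := by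
      rw [h3, lamU_val]
    rw [← h5, ← h6]
    exact clsF_comm b ((T⁻¹ : unitary (GA Γ)) : GA Γ).2 ((T * lamU a : unitary (GA Γ)) : GA Γ).2
  rw [clsF_lam, clsF_lam, if_pos (IsConj.refl b)] at h4
  by_contra hcon
  rw [if_neg (fun h' => hcon h'.symm)] at h4
  exact zero_ne_one h4

end GA

end Pool.Agent.H76.Ker
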