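import Pool.Agent.H76.Ker.GrpAlg

/-! Products of conjugacy classes: the relation `PX L x` (`x` lies in the product of the classes of
the entries of `L`), and product-one relations in finite groups. -/

set_option autoImplicit false

namespace Pool.Agent.H76.Ker

open Monoid Pool.Agent.H76.GR

universe u v

section PX

variable {Γ : Type*} [Group Γ]

/-- `x` is a product of conjugates of the entries of `L`, in this order. -/
def PX (L : List Γ) (x : Γ) : Prop :=
  ∃ l : List (Γ × Γ), l.map Prod.snd = L ∧ pc (MonoidHom.id Γ) l = x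

theorem PX_nil {x : Γ} : PX ([] : List Γ) x ↔ x = 1 := by
  constructor
  · rintro ⟨l, hl, rfl⟩
    rw [List.map_eq_nil_iff] at hl
    subst hl
    rfl
  · rintro rfl
    exact ⟨[], rfl, rfl⟩

theorem PX_cons {a : Γ} {L : List Γ} {x : Γ} :
    PX (a :: L) x ↔ ∃ c y, PX L y ∧ x = c * a * c⁻¹ * y := by
  constructor
  · rintro ⟨l, hl, rfl⟩
    obtain ⟨p, l', rfl, hp, hl'⟩ := List.map_eq_cons_iff.mp hl
    refine ⟨p.1, pc (MonoidHom.id Γ) l', ⟨l', hl', rfl⟩, ?_⟩
    rw [pc_cons, MonoidHom.id_apply, hp]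
  · rintro ⟨c, y, ⟨l, hl, rfl⟩, rfl⟩
    refine ⟨(c, a) :: l, ?_, ?_⟩
    · rw [List.map_cons, hl]
    · rw [pc_cons, MonoidHom.id_apply]

theorem PX_append {L L' : List Γ} {x : Γ} :
    PX (L ++ L') x ↔ ∃ y z, PX L y ∧ PX L' z ∧ x = y * z := by
  induction L generalizing x with
  | nil =>
    simp only [List.nil_append, PX_nil]
    constructor
    · intro h
      exact ⟨1, x, rfl, h, (one_mul x).symm⟩
    · rintro ⟨y, z, rfl, h, rfl⟩
      rwa [one_mul]
  | cons a L ih =>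
    rw [List.cons_append, PX_cons]
    constructor
    · rintro ⟨c, y, hy, rfl⟩
      obtain ⟨y', z, hy', hz, rfl⟩ := ih.mp hy
      exact ⟨c * a * c⁻¹ * y', z, PX_cons.mpr ⟨c, y', hy', rfl⟩, hz, by group⟩
    · rintro ⟨y, z, hy, hz, rfl⟩
      obtain ⟨c, y', hy', rfl⟩ := PX_cons.mp hy
      exact ⟨c, y' * z, ih.mpr ⟨y', z, hy', hz, rfl⟩, by group⟩

theorem PX_prod (L : List Γ) : PX L L.prod := by
  induction L with
  | nil => exact PX_nil.mpr rfl
  | cons a L ih => exact PX_cons.mpr ⟨1, L.prod, ih, by simp⟩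

theorem PX_conj {L : List Γ} {x : Γ} (h : PX L x) (k : Γ) : PX L (k * x * k⁻¹) := by
  obtain ⟨l, hl, rfl⟩ := h
  refine ⟨l.map (fun y => (k * y.1, y.2)), ?_, (pc_conj _ _ _).symm⟩
  rw [List.map_map, ← hl]
  rfl

theorem PX_perm {L L' : List Γ} (hL : L.Perm L') {x : Γ} (h : PX L x) : PX L' x := by
  induction hL generalizing x with
  | nil => exact h
  | cons a _ ih =>
    obtain ⟨c, y, hy, rfl⟩ := PX_cons.mp h
    exact PX_cons.mpr ⟨c, y, ih hy, rfl⟩
  | swap a b L =>
    obtain ⟨c, y, hy, rfl⟩ := PX_cons.mp h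
    obtain ⟨d, z, hz, rfl⟩ := PX_cons.mp hy
    refine PX_cons.mpr ⟨c * b * c⁻¹ * d, _, PX_cons.mpr ⟨c, z, hz, rfl⟩, ?_⟩
    group
  | trans _ _ ih1 ih2 => exact ih2 (ih1 h)

theorem PX_map {Δ : Type*} [Group Δ] (f : Γ →* Δ) {L : List Γ} {x : Γ} (h : PX L x) :
    PX (L.map f) (f x) := by
  obtain ⟨l, rfl, rfl⟩ := h
  refine ⟨l.map (fun y => (f y.1, f y.2)), ?_, ?_⟩
  · rw [List.map_map, List.map_map]
    rfl
  · rw [← pc_map (MonoidHom.id Γ) (MonoidHom.id Δ) f f (fun _ => rfl)]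

/-- Lifting a product of conjugates through a surjection, up to the kernel. -/
theorem PX_lift {Δ : Type*} [Group Δ] (f : Γ →* Δ) (hf : Function.Surjective f) {L : List Γ}
    {x : Δ} (h : PX (L.map f) x) : ∃ y, f y = x ∧ PX L y := by
  induction L generalizing x with
  | nil =>
    rw [List.map_nil, PX_nil] at h
    exact ⟨1, by rw [map_one, h], PX_nil.mpr rfl⟩
  | cons a L ih =>
    rw [List.map_cons] at h
    obtain ⟨c, y, hy, rfl⟩ := PX_cons.mp h
    obtain ⟨y', rfl, hy'⟩ := ih hy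
    obtain ⟨c', rfl⟩ := hf c
    exact ⟨c' * a * c'⁻¹ * y', by simp, PX_cons.mpr ⟨c', y', hy', rfl⟩⟩

end PX

section Fin

variable {Γ : Type u} [Group Γ] {n : ℕ}

/-- The Gerstenhaber–Rothaus theorem in the unitary group of the group algebra. -/
theorem gr_alg [Fintype Γ] [DecidableEq Γ] (w : Fin n → WG Γ n)
    (hdet : (Matrix.of fun i j => Multiplicative.toAdd (expo Γ n i (w j))).det ≠ 0) :
    ∃ Φ : WG Γ n →* unitary (GA Γ), (∀ g, Φ (Coprod.inl g) = lamU g) ∧ ∀ j, Φ (w j) = 1 := by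
  let M : WG Γ n →* WU (GA Γ) n := Coprod.map lamU (MonoidHom.id _)
  have he : ∀ i c, eta (unitary (GA Γ)) i (M c) = eta Γ i c := by
    intro i c
    have : (eta (unitary (GA Γ)) i).comp M = eta Γ i := by
      refine Coprod.hom_ext (MonoidHom.ext fun c => ?_) (FreeGroup.ext_hom _ _ fun k => ?_)
      · simp [M]
      · simp [M]
    exact DFunLike.congr_fun this c
  obtain ⟨u, hu⟩ := gr_unitary (gaTr_isTr Γ) (fun j => M (w j)) (by
    simp only [he]
    exact hdet)
  refine ⟨(Coprod.lift (MonoidHom.id _) (FreeGroup.lift u)).comp M, fun g => ?_, fun j => hu j⟩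
  simp [M]

/-- A product of conjugates of central elements. -/
theorem pc_central {U : Type*} [Group U] (ι : Γ →* U) (l : List (U × Γ))
    (hl : ∀ y ∈ l, ∀ u, u * ι y.2 = ι y.2 * u) : pc ι l = ι (l.map Prod.snd).prod := by
  induction l with
  | nil => simp [pc_nil]
  | cons x l ih =>
    rw [pc_cons, ih (fun y hy => hl y (List.mem_cons_of_mem _ hy)), List.map_cons, List.prod_cons,
      map_mul, hl x List.mem_cons_self]
    group

/-- The product-one relation in a finite group: all entries central. -/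
theorem fin_central [Finite Γ] (w : Fin n → WG Γ n)
    (hdet : (Matrix.of fun i j => Multiplicative.toAdd (expo Γ n i (w j))).det ≠ 0)
    (l : List (WG Γ n × Γ)) (hl : ∀ y ∈ l, y.2 ∈ Subgroup.center Γ)
    (hmem : pc Coprod.inl l ∈ Subgroup.normalClosure (Set.range w)) :
    (l.map Prod.snd).prod = 1 := by
  classical
  have := Fintype.ofFinite Γ
  obtain ⟨Φ, hΦ, hw⟩ := gr_alg w hdet
  have hker : Subgroup.normalClosure (Set.range w) ≤ Φ.ker := by
    apply Subgroup.normalClosure_le_normal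
    rintro _ ⟨j, rfl⟩
    exact hw j
  have h1 : Φ (pc Coprod.inl l) = 1 := hker hmem
  rw [pc_map (Coprod.inl : Γ →* WG Γ n) lamU Φ (MonoidHom.id Γ) hΦ, pc_central] at h1
  · rw [List.map_map, ← map_one lamU] at h1
    exact lamU_injective h1
  · intro y hy u
    rw [List.mem_map] at hy
    obtain ⟨z, hz, rfl⟩ := hy
    exact lamU_central z.2 (Subgroup.mem_center_iff.mp (hl z hz)) u

/-- The product-one relation in a finite group: at most two entries are not central. -/
theorem fin_two [Finite Γ] (w : Fin n → WG Γ n)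
    (hdet : (Matrix.of fun i j => Multiplicative.toAdd (expo Γ n i (w j))).det ≠ 0)
    (a b : WG Γ n × Γ) (l l' l'' : List (WG Γ n × Γ)) (hl : ∀ y ∈ l, y.2 ∈ Subgroup.center Γ)
    (hl' : ∀ y ∈ l', y.2 ∈ Subgroup.center Γ) (hl'' : ∀ y ∈ l'', y.2 ∈ Subgroup.center Γ)
    (hmem : pc Coprod.inl (l ++ a :: (l' ++ b :: l'')) ∈ Subgroup.normalClosure (Set.range w)) :
    IsConj a.2 ((l.map Prod.snd).prod * (l'.map Prod.snd).prod * (l''.map Prod.snd).prod * b.2)⁻¹ := by
  classical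
  have := Fintype.ofFinite Γ
  obtain ⟨Φ, hΦ, hw⟩ := gr_alg w hdet
  have hker : Subgroup.normalClosure (Set.range w) ≤ Φ.ker := by
    apply Subgroup.normalClosure_le_normal
    rintro _ ⟨j, rfl⟩
    exact hw j
  have h1 : Φ (pc Coprod.inl (l ++ a :: (l' ++ b :: l''))) = 1 := hker hmem
  have hcen : ∀ l : List (WG Γ n × Γ), (∀ y ∈ l, y.2 ∈ Subgroup.center Γ) →
      Φ (pc Coprod.inl l) = lamU (l.map Prod.snd).prod := by
    intro l hl
    rw [pc_map (Coprod.inl : Γ →* WG Γ n) lamU Φ (MonoidHom.id Γ) hΦ, pc_central, List.map_map]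
    · rfl
    · intro y hy u
      rw [List.mem_map] at hy
      obtain ⟨z, hz, rfl⟩ := hy
      exact lamU_central z.2 (Subgroup.mem_center_iff.mp (hl z hz)) u
  have hprod : ∀ l : List (WG Γ n × Γ), (∀ y ∈ l, y.2 ∈ Subgroup.center Γ) →
      (l.map Prod.snd).prod ∈ Subgroup.center Γ := by
    intro l hl
    apply Subgroup.list_prod_mem
    intro x hx
    rw [List.mem_map] at hx
    obtain ⟨z, hz, rfl⟩ := hx
    exact hl z hz
  rw [pc_append, pc_cons, pc_append, pc_cons] at h1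
  simp only [map_mul, map_inv, hΦ, hcen l hl, hcen l' hl', hcen l'' hl''] at h1
  set z := (l.map Prod.snd).prod with hz
  set z' := (l'.map Prod.snd).prod with hz'
  set z'' := (l''.map Prod.snd).prod with hz''
  have cz := hprod l hl
  have cz' := hprod l' hl'
  have cz'' := hprod l'' hl''
  rw [← hz] at cz
  rw [← hz'] at cz'
  rw [← hz''] at cz''
  have c1 := lamU_central z (Subgroup.mem_center_iff.mp cz)
  have c2 := lamU_central z' (Subgroup.mem_center_iff.mp cz')
  have c3 := lamU_central z'' (Subgroup.mem_center_iff.mp cz'')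
  apply lamU_conj a.2 _ ((Φ b.1)⁻¹ * Φ a.1)
  rw [map_inv, map_mul, map_mul, map_mul]
  set A := lamU a.2
  set B := lamU b.2
  set Z := lamU z
  set Z' := lamU z'
  set Z'' := lamU z''
  set x := Φ a.1
  set y := Φ b.1
  rw [eq_inv_iff_mul_eq_one]
  have e1 : Z * (x * A * x⁻¹) * (Z' * ((y * B * y⁻¹) * Z'')) = 1 := by
    rw [← h1]
    group
  have e2 : (x * A * x⁻¹) * (Z * Z' * Z'') * (y * B * y⁻¹) = 1 := by
    rw [← e1, ← c1 (x * A * x⁻¹), c3 (y * B * y⁻¹)]
    group
  have e3 : y⁻¹ * ((x * A * x⁻¹) * (Z * Z' * Z'') * (y * B * y⁻¹)) * y = 1 := by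
    rw [e2]; group
  rw [← e3]
  have e4 : Z * Z' * Z'' * y = y * (Z * Z' * Z'') := by
    rw [mul_assoc, ← c3 y, ← mul_assoc, mul_assoc Z, ← c2 y, ← mul_assoc, ← c1 y]
    group
  calc (y⁻¹ * x) * A * (y⁻¹ * x)⁻¹ * (Z * Z' * Z'' * B)
      = y⁻¹ * (x * A * x⁻¹) * (y * (Z * Z' * Z'')) * B := by group
    _ = y⁻¹ * (x * A * x⁻¹) * (Z * Z' * Z'' * y) * B := by rw [e4]
    _ = _ := by group

end Fin

end Pool.Agent.H76.Ker
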