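import Pool.Agent.H76.Ker.Core2

/-! Groups with an abelian normal subgroup of prime index. -/

set_option autoImplicit false

namespace Pool.Agent.H76.Ker

open Monoid Finset

universe u

theorem QK.mono {Γ : Type u} [Group Γ] {n : ℕ} {K K' : Set Γ} (h : QK Γ n K) (hK : K' ⊆ K) :
    QK Γ n K' := fun w hdet l hl => h w hdet l (fun y hy => hK (hl y hy))

section Abs

variable {B : Type u} [CommGroup B]

/-- Evaluation of formal combinations of elements of `B`. -/
noncomputable def qm : (B →₀ ℤ) →+ Additive B :=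
  Finsupp.liftAddHom (fun b => zmultiplesHom (Additive B) (Additive.ofMul b))

theorem qm_single (b : B) (m : ℤ) : qm (Finsupp.single b m) = m • Additive.ofMul b := by
  simp [qm]

theorem qm_act (σ : MulAut B) (k : ℤ) (x : B →₀ ℤ) :
    Additive.toMul (qm (act (MulAut.toPerm B σ) k x)) = (σ ^ k) (Additive.toMul (qm x)) := by
  induction x using Finsupp.induction_linear with
  | zero => rw [act_z, map_zero]; simp
  | add x y hx hy => rw [act_add, map_add, toMul_add, hx, hy, map_add, toMul_add, map_mul]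
  | single b m =>
    have : act (MulAut.toPerm B σ) k (Finsupp.single b m)
        = Finsupp.single ((σ ^ k) b) m := by
      rw [act, Finsupp.equivMapDomain_single, ← map_zpow]
      rfl
    rw [this, qm_single, qm_single, toMul_zsmul, toMul_zsmul, toMul_ofMul, toMul_ofMul, map_zpow]

theorem zpow_conj {G : Type*} [Group G] (ι : B →* G) (s : G) (σ : MulAut B)
    (hσ : ∀ b, ι (σ b) = s * ι b * s⁻¹) (k : ℤ) (b : B) :
    ι ((σ ^ k) b) = s ^ k * ι b * (s ^ k)⁻¹ := by
  have h : (MonoidHom.id G).comp ι = ι := rfl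
  have hinv : ∀ b, ι (σ⁻¹ b) = s⁻¹ * ι b * s := by
    intro b
    have := hσ (σ⁻¹ b)
    have h2 : σ (σ⁻¹ b) = b := by
      rw [← MulAut.mul_apply, mul_inv_cancel, MulAut.one_apply]
    rw [h2] at this
    rw [this]
    group
  have hnat : ∀ (m : ℕ) b, ι ((σ ^ m) b) = s ^ m * ι b * (s ^ m)⁻¹ := by
    intro m
    induction m with
    | zero => intro b; simp
    | succ m ih =>
      intro b
      rw [pow_succ', MulAut.mul_apply, hσ, ih, pow_succ']
      group
  have hnat' : ∀ (m : ℕ) b, ι ((σ⁻¹ ^ m) b) = (s⁻¹) ^ m * ι b * ((s⁻¹) ^ m)⁻¹ := by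
    intro m
    induction m with
    | zero => intro b; simp
    | succ m ih =>
      intro b
      rw [pow_succ', MulAut.mul_apply, hinv, ih, pow_succ']
      group
  obtain ⟨m, rfl | rfl⟩ := k.eq_nat_or_neg
  · rw [zpow_natCast, zpow_natCast, hnat]
  · rw [zpow_neg, zpow_natCast, zpow_neg, zpow_natCast, ← inv_pow, ← inv_pow, hnat']

/-- The abstract form of the theorem for elements of the abelian subgroup. -/
theorem prime_abs {G : Type u} [Group G] (ι : B →* G) (s : G) (σ : MulAut B)
    (hσ : ∀ b, ι (σ b) = s * ι b * s⁻¹) (p : ℕ) (hp : p.Prime) (hσp : σ ^ p = 1)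
    (hsurj : ∀ g, ∃ (b : B) (k : ℤ), g = ι b * s ^ k)
    (hk : ∀ (b : B) (k : ℤ), ι b * s ^ k = 1 → (p : ℤ) ∣ k) (n : ℕ) :
    QK G n (Set.range ι) := by
  have hσ' : (MulAut.toPerm B σ) ^ p = 1 := by rw [← map_pow, hσp, map_one]
  let π : Gt B (MulAut.toPerm B σ) →* G :=
    { toFun := fun a => ι (Additive.toMul (qm a.x)) * s ^ a.k
      map_one' := by simp
      map_mul' := fun a b => by
        rw [Gt.mul_x, Gt.mul_k, map_add, toMul_add, qm_act, map_mul, zpow_conj ι s σ hσ, zpow_add]
        group }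
  have hπ : ∀ a, π a = ι (Additive.toMul (qm a.x)) * s ^ a.k := fun a => rfl
  have hπs : Function.Surjective π := by
    intro g
    obtain ⟨b, k, rfl⟩ := hsurj g
    refine ⟨⟨Finsupp.single b 1, k⟩, ?_⟩
    rw [hπ, qm_single]
    simp
  refine (QK_quot π hπs {a | (p : ℤ) ∣ a.k} ?_ (core_QK p hp hσ' n)).mono ?_
  · intro a ha
    have : π a = 1 := ha
    rw [hπ] at this
    exact hk _ _ this
  · rintro _ ⟨b, rfl⟩
    refine ⟨⟨Finsupp.single b 1, 0⟩, ?_, ?_⟩
    · simp
    · rw [hπ, qm_single]
      simp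

end Abs

/-- Abelian groups. -/
theorem QK_comm {B : Type u} [CommGroup B] (n : ℕ) : QK B n Set.univ := by
  let Γ := Multiplicative (B →₀ ℤ)
  have hΓ : QK Γ n Set.univ := by
    intro w hdet l _ hmem
    set r := l.length with hr
    let h : Fin r → WG Γ n := fun i => (l.get i).1
    let g : Fin r → Γ := fun i => (l.get i).2
    have hl2 : List.ofFn (fun i => (h i, g i)) = l := by
      have : (fun i => (h i, g i)) = l.get := by
        funext i
        rfl
      rw [this, List.ofFn_get]
    have hmem' : (List.ofFn (fun i => h i * Coprod.inl (g i) * (h i)⁻¹)).prod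
        ∈ Subgroup.normalClosure (Set.range w) := by
      rw [← pc_ofFn, hl2]
      exact hmem
    have h0 : ∑ v, Multiplicative.toAdd (g v) = 0 := by
      ext b
      rw [Finsupp.finsetSum_apply]
      exact hom_rel w hdet h g hmem' (AddMonoidHom.toMultiplicative (Finsupp.applyAddHom b))
    refine ⟨List.ofFn (fun v => ((1 : Γ), g v)), ?_, ?_⟩
    · rw [← hl2, List.map_ofFn, List.map_ofFn]
      rfl
    · rw [pc_ofFn]
      simp only [MonoidHom.id_apply, one_mul, inv_one, mul_one]
      rw [List.prod_ofFn]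
      exact congrArg Multiplicative.ofAdd h0
  let π : Γ →* B := AddMonoidHom.toMultiplicativeLeft (qm (B := B))
  have hπs : Function.Surjective π := by
    intro b
    refine ⟨Multiplicative.ofAdd (Finsupp.single b 1), ?_⟩
    show Additive.toMul (qm (Finsupp.single b 1)) = b
    rw [qm_single]
    simp
  refine (QK_quot π hπs Set.univ (Set.subset_univ _) hΓ).mono ?_
  intro b _
  obtain ⟨x, hx⟩ := hπs b
  exact ⟨x, trivial, hx⟩

theorem pc_comm {B : Type*} [CommGroup B] (l : List (B × B)) :
    pc (MonoidHom.id B) l = (l.map Prod.snd).prod := by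
  induction l with
  | nil => rfl
  | cons x l ih => rw [pc_cons, ih]; simp

/-- A product-one relation over `G` holds modulo commutators. -/
theorem comm_rel {G : Type u} [Group G] {n : ℕ} (w : Fin n → WG G n)
    (hdet : (Matrix.of fun i j => Multiplicative.toAdd (expo G n i (w j))).det ≠ 0)
    (l : List (WG G n × G)) (hmem : pc Coprod.inl l ∈ Subgroup.normalClosure (Set.range w)) :
    (l.map Prod.snd).prod ∈ commutator G := by
  let π : G →* Abelianization G := Abelianization.of
  have hdet' : (Matrix.of fun i j =>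
      Multiplicative.toAdd (expo (Abelianization G) n i (wmap n π (w j)))).det ≠ 0 := by
    have : (Matrix.of fun i j =>
        Multiplicative.toAdd (expo (Abelianization G) n i (wmap n π (w j))))
        = (Matrix.of fun i j => Multiplicative.toAdd (expo G n i (w j))) := by
      ext i j
      simp only [Matrix.of_apply]
      rw [wmap_expo]
    rw [this]
    exact hdet
  have h1 : pc Coprod.inl (l.map (fun x => (wmap n π x.1, π x.2)))
      ∈ Subgroup.normalClosure (Set.range fun j => wmap n π (w j)) := by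
    rw [← pc_map (Coprod.inl : G →* WG G n) (Coprod.inl : Abelianization G →* _) (wmap n π) π
      (fun _ => rfl)]
    have h2 : (Subgroup.normalClosure (Set.range w)).map (wmap n π)
        ≤ Subgroup.normalClosure (Set.range fun j => wmap n π (w j)) := by
      refine le_trans (Subgroup.map_normalClosure_le _ _) ?_
      rw [← Set.range_comp]
      rfl
    exact h2 ⟨_, hmem, rfl⟩
  obtain ⟨l', hl', hl'1⟩ := QK_comm (B := Abelianization G) n _ hdet' _ (fun _ _ => trivial) h1
  rw [pc_comm, hl', List.map_map] at hl'1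
  have h3 : (Prod.snd ∘ fun x : WG G n × G => (wmap n π x.1, π x.2)) = π ∘ Prod.snd := rfl
  rw [h3, ← List.map_map, ← map_list_prod] at hl'1
  have h4 : (l.map Prod.snd).prod ∈ (Abelianization.of (G := G)).ker := hl'1
  rwa [Abelianization.ker_of] at h4

section Final

variable {G : Type u} [Group G]

theorem comm_eq (A : Subgroup G) [A.Normal] (hA : ∀ a ∈ A, ∀ b ∈ A, a * b = b * a)
    (hp : A.index.Prime) (g0 : G) (hg0 : g0 ∉ A) (c : G) (hc : c ∈ commutator G) :
    ∃ a ∈ A, c = a * g0 * a⁻¹ * g0⁻¹ := by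
  have hgen : ∀ H : Subgroup G, A ≤ H → g0 ∈ H → H = ⊤ := by
    intro H hAH hgH
    have h1 := Subgroup.relIndex_mul_index hAH
    rw [← h1] at hp
    rcases (Nat.prime_mul_iff.mp hp) with ⟨_, h2⟩ | ⟨_, h2⟩
    · exact Subgroup.index_eq_one.mp h2
    · exact absurd (Subgroup.relIndex_eq_one.mp h2 hgH) hg0
  have hconj : ∀ a ∈ A, g0 * a * g0⁻¹ ∈ A := fun a ha => Subgroup.Normal.conj_mem inferInstance a ha g0
  let N : Subgroup G :=
    { carrier := {c | ∃ a ∈ A, c = a * g0 * a⁻¹ * g0⁻¹}
      one_mem' := ⟨1, A.one_mem, by group⟩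
      mul_mem' := by
        rintro _ _ ⟨a, ha, rfl⟩ ⟨b, hb, rfl⟩
        refine ⟨a * b, A.mul_mem ha hb, ?_⟩
        have h1 := hA b hb (g0 * a⁻¹ * g0⁻¹) (hconj _ (A.inv_mem ha))
        calc a * g0 * a⁻¹ * g0⁻¹ * (b * g0 * b⁻¹ * g0⁻¹)
            = a * ((g0 * a⁻¹ * g0⁻¹) * b) * (g0 * b⁻¹ * g0⁻¹) := by group
          _ = a * (b * (g0 * a⁻¹ * g0⁻¹)) * (g0 * b⁻¹ * g0⁻¹) := by rw [h1]
          _ = a * b * g0 * (a⁻¹ * b⁻¹) * g0⁻¹ := by group
          _ = a * b * g0 * (b⁻¹ * a⁻¹) * g0⁻¹ := by
              rw [hA _ (A.inv_mem ha) _ (A.inv_mem hb)]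
          _ = a * b * g0 * (a * b)⁻¹ * g0⁻¹ := by group
      inv_mem' := by
        rintro _ ⟨a, ha, rfl⟩
        refine ⟨a⁻¹, A.inv_mem ha, ?_⟩
        have h1 := hA a⁻¹ (A.inv_mem ha) (g0 * a * g0⁻¹) (hconj _ ha)
        calc (a * g0 * a⁻¹ * g0⁻¹)⁻¹ = (g0 * a * g0⁻¹) * a⁻¹ := by group
          _ = a⁻¹ * (g0 * a * g0⁻¹) := by rw [h1]
          _ = a⁻¹ * g0 * a⁻¹⁻¹ * g0⁻¹ := by group }
  have hNA : ∀ x ∈ N, x ∈ A := by
    rintro _ ⟨a, ha, rfl⟩
    have : a * g0 * a⁻¹ * g0⁻¹ = a * (g0 * a⁻¹ * g0⁻¹) := by group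
    rw [this]
    exact A.mul_mem ha (hconj _ (A.inv_mem ha))
  have hNn : N.Normal := by
    have h1 : Subgroup.normalizer (N : Set G) = ⊤ := by
      apply hgen
      · intro b hb
        rw [Subgroup.mem_normalizer_iff]
        intro x
        constructor
        · intro hx
          have : b * x * b⁻¹ = x := by
            rw [hA b hb x (hNA x hx)]; group
          rw [this]; exact hx
        · intro hx
          have h2 : b⁻¹ * (b * x * b⁻¹) * b = b * x * b⁻¹ := by
            rw [hA b⁻¹ (A.inv_mem hb) _ (hNA _ hx)]; group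
          have h3 : x = b * x * b⁻¹ := by
            rw [← h2]; group
          rw [h3]; exact hx
      · rw [Subgroup.mem_normalizer_iff]
        intro x
        constructor
        · rintro ⟨a, ha, rfl⟩
          refine ⟨g0 * a * g0⁻¹, hconj a ha, by group⟩
        · rintro ⟨a, ha, hx⟩
          have hc' : g0⁻¹ * a * g0 ∈ A := by
            have := Subgroup.Normal.conj_mem (inferInstance : A.Normal) a ha g0⁻¹
            simpa using this
          refine ⟨g0⁻¹ * a * g0, hc', ?_⟩
          have : x = g0⁻¹ * (g0 * x * g0⁻¹) * g0 := by group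
          rw [this, hx]; group
    exact Subgroup.normalizer_eq_top_iff.mp h1
  have hcomm : ∀ x y : G ⧸ N, x * y = y * x := by
    have hAg : ∀ a ∈ A, (QuotientGroup.mk' N a) * (QuotientGroup.mk' N g0)
        = (QuotientGroup.mk' N g0) * (QuotientGroup.mk' N a) := by
      intro a ha
      rw [← map_mul, ← map_mul]
      have h1 : a * g0 = (a * g0 * a⁻¹ * g0⁻¹) * (g0 * a) := by group
      rw [h1, map_mul]
      have h2 : QuotientGroup.mk' N (a * g0 * a⁻¹ * g0⁻¹) = 1 := by
        rw [← MonoidHom.mem_ker, QuotientGroup.ker_mk']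
        exact ⟨a, ha, rfl⟩
      rw [h2, one_mul]
    have hcen : ∀ y : G, (y = g0 ∨ y ∈ A) → ∀ x : G,
        (QuotientGroup.mk' N x) * (QuotientGroup.mk' N y)
          = (QuotientGroup.mk' N y) * (QuotientGroup.mk' N x) := by
      intro y hy
      let Z : Subgroup G := (Subgroup.centralizer {QuotientGroup.mk' N y}).comap (QuotientGroup.mk' N)
      have hZ : Z = ⊤ := by
        apply hgen
        · intro b hb
          rw [Subgroup.mem_comap, Subgroup.mem_centralizer_singleton_iff]
          rcases hy with rfl | hy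
          · exact hAg b hb
          · rw [← map_mul, ← map_mul, hA b hb y hy]
        · rw [Subgroup.mem_comap, Subgroup.mem_centralizer_singleton_iff]
          rcases hy with rfl | hy
          · rfl
          · exact (hAg y hy).symm
      intro x
      have : x ∈ Z := by rw [hZ]; trivial
      rw [Subgroup.mem_comap, Subgroup.mem_centralizer_singleton_iff] at this
      exact this
    intro x y
    obtain ⟨x, rfl⟩ := QuotientGroup.mk'_surjective N x
    obtain ⟨y, rfl⟩ := QuotientGroup.mk'_surjective N y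
    let Z : Subgroup G := (Subgroup.centralizer {QuotientGroup.mk' N x}).comap (QuotientGroup.mk' N)
    have hZ : Z = ⊤ := by
      apply hgen
      · intro b hb
        rw [Subgroup.mem_comap, Subgroup.mem_centralizer_singleton_iff]
        exact (hcen b (Or.inr hb) x).symm
      · rw [Subgroup.mem_comap, Subgroup.mem_centralizer_singleton_iff]
        exact (hcen g0 (Or.inl rfl) x).symm
    have : y ∈ Z := by rw [hZ]; trivial
    rw [Subgroup.mem_comap, Subgroup.mem_centralizer_singleton_iff] at this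
    exact this.symm
  have hle : commutator G ≤ N := by
    rw [← Subgroup.Normal.quotient_commutative_iff_commutator_le]
    exact ⟨⟨hcomm⟩⟩
  exact hle hc

/-- Elements of the abelian subgroup. -/
theorem prime_QK_mem (A : Subgroup G) [A.Normal] (hA : ∀ a ∈ A, ∀ b ∈ A, a * b = b * a)
    (hp : A.index.Prime) (n : ℕ) : QK G n (A : Set G) := by
  obtain ⟨s, hs⟩ : ∃ s, s ∉ A := by
    by_contra hcon
    push Not at hcon
    have : A = ⊤ := by rw [eq_top_iff]; intro x _; exact hcon x
    rw [this, Subgroup.index_top] at hp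
    exact Nat.not_prime_one hp
  set p := A.index with hpd
  have hfact := Fact.mk hp
  have hcard : Nat.card (G ⧸ A) = p := rfl
  have hs1 : (QuotientGroup.mk' A s) ≠ 1 := by
    intro h
    rw [← MonoidHom.mem_ker, QuotientGroup.ker_mk'] at h
    exact hs h
  have hsp : (QuotientGroup.mk' A s) ^ p = 1 := by
    rw [← hcard]
    exact pow_card_eq_one'
  have hord : orderOf (QuotientGroup.mk' A s) = p := orderOf_eq_prime hsp hs1
  have hspA : s ^ p ∈ A := by
    rw [← map_pow, ← MonoidHom.mem_ker, QuotientGroup.ker_mk'] at hsp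
    exact hsp
  let _ : CommGroup A :=
    { (inferInstance : Group A) with
      mul_comm := fun a b => Subtype.ext (hA a a.2 b b.2) }
  have h1 : QK G n (Set.range A.subtype) := by
    refine prime_abs A.subtype s (MulAut.conjNormal s) (fun b => ?_) p hp ?_ ?_ ?_ n
    · rw [Subgroup.coe_subtype, MulAut.conjNormal_apply]
    · rw [← map_pow]
      ext b
      rw [MulAut.conjNormal_apply, MulAut.one_apply, hA _ hspA b b.2]
      group
    · intro g
      have h2 : QuotientGroup.mk' A g ∈ Subgroup.zpowers (QuotientGroup.mk' A s) :=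
        mem_zpowers_of_prime_card hcard hs1
      obtain ⟨k, hk⟩ := Subgroup.mem_zpowers_iff.mp h2
      have h3 : g * (s ^ k)⁻¹ ∈ A := by
        rw [← QuotientGroup.ker_mk' A, MonoidHom.mem_ker, map_mul, map_inv, map_zpow, hk,
          mul_inv_cancel]
      exact ⟨⟨_, h3⟩, k, by simp⟩
    · intro b k hbk
      have h2 : s ^ k ∈ A := by
        have : s ^ k = (b : G)⁻¹ := by
          exact eq_inv_of_mul_eq_one_right hbk
        rw [this]
        exact A.inv_mem b.2
      rw [← QuotientGroup.ker_mk' A, MonoidHom.mem_ker, map_zpow,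
        ← orderOf_dvd_iff_zpow_eq_one, hord] at h2
      exact h2
  refine h1.mono ?_
  intro a ha
  exact ⟨⟨a, ha⟩, rfl⟩

/-- All elements. -/
theorem prime_QK (A : Subgroup G) [A.Normal] (hA : ∀ a ∈ A, ∀ b ∈ A, a * b = b * a)
    (hp : A.index.Prime) (n : ℕ) : QK G n Set.univ := by
  intro w hdet l _ hmem
  by_cases hl : ∀ y ∈ l, y.2 ∈ (A : Set G)
  · exact prime_QK_mem A hA hp n w hdet l hl hmem
  · push Not at hl
    obtain ⟨y, hy, hyA⟩ := hl
    have hc := comm_rel w hdet l hmem
    obtain ⟨l1, l2, rfl⟩ := List.append_of_mem hy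
    rw [List.map_append, List.map_cons, List.prod_append, List.prod_cons] at hc
    set u := (l1.map Prod.snd).prod with hu
    set v := (l2.map Prod.snd).prod with hv
    have hc' : u⁻¹ * (u * (y.2 * v))⁻¹ * u ∈ commutator G := by
      have := Subgroup.Normal.conj_mem (inferInstance : (commutator G).Normal) _
        ((commutator G).inv_mem hc) u⁻¹
      simpa using this
    obtain ⟨a, _, ha⟩ := comm_eq A hA hp y.2 hyA _ hc'
    refine ⟨l1.map (fun x => ((1 : G), x.2)) ++ (a, y.2) :: l2.map (fun x => ((1 : G), x.2)), ?_, ?_⟩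
    · simp only [List.map_append, List.map_cons, List.map_map]
      rfl
    · have h1 : ∀ l : List (WG G n × G),
          pc (MonoidHom.id G) (l.map (fun x => ((1 : G), x.2))) = (l.map Prod.snd).prod := by
        intro l
        rw [pc, List.map_map]
        congr 1
        apply List.map_congr_left
        intro x _
        simp
      rw [pc_append, pc_cons, h1, h1, ← hu, ← hv, MonoidHom.id_apply]
      have h2 : a * y.2 * a⁻¹ = (u⁻¹ * (u * (y.2 * v))⁻¹ * u) * y.2 := by
        rw [ha]; group
      rw [h2]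
      group

end Final

end Pool.Agent.H76.Ker
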