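import Pool.Agent.H76.Ker.PX

/-! Groups of nilpotency class at most two. -/

set_option autoImplicit false

namespace Pool.Agent.H76.Ker

open Monoid Pool.Agent.H76.GR
open scoped commutatorElement

universe u v

section Min

/-- In a commutative group in which every nontrivial subgroup contains `z ≠ 1`, every element has
finite order. -/
theorem torsion_of_min {Z : Type*} [CommGroup Z] (z : Z) (hz : z ≠ 1)
    (h : ∀ S : Subgroup Z, S ≠ ⊥ → z ∈ S) (y : Z) : IsOfFinOrder y := by
  have h1 : IsOfFinOrder z := by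
    by_cases h2 : z ^ 2 = 1
    · exact isOfFinOrder_iff_pow_eq_one.mpr ⟨2, by norm_num, h2⟩
    · have h3 : z ∈ Subgroup.zpowers (z ^ 2) := h _ (by
        rw [Ne, Subgroup.zpowers_eq_bot]
        exact h2)
      obtain ⟨k, hk⟩ := Subgroup.mem_zpowers_iff.mp h3
      rw [← zpow_natCast, ← zpow_mul] at hk
      have h4 : z ^ (((2 : ℕ) : ℤ) * k - 1) = 1 := by
        rw [zpow_sub, hk, zpow_one, mul_inv_cancel]
      exact isOfFinOrder_iff_zpow_eq_one.mpr ⟨_, by push_cast; omega, h4⟩
  by_cases hy : y = 1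
  · rw [hy]
    exact IsOfFinOrder.one
  · have h3 : z ∈ Subgroup.zpowers y := h _ (by
      rw [Ne, Subgroup.zpowers_eq_bot]
      exact hy)
    obtain ⟨k, hk⟩ := Subgroup.mem_zpowers_iff.mp h3
    obtain ⟨m, hm, hm1⟩ := isOfFinOrder_iff_pow_eq_one.mp h1
    refine isOfFinOrder_iff_zpow_eq_one.mpr ⟨k * m, ?_, ?_⟩
    · intro h0
      rcases mul_eq_zero.mp h0 with h0 | h0
      · rw [h0, zpow_zero] at hk
        exact hz hk.symm
      · have : m = 0 := by exact_mod_cast h0
        omega
    · rw [zpow_mul, hk, zpow_natCast, hm1]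

variable {Q : Type*} [Group Q]

theorem comm_mul_left (h2 : ∀ x y : Q, ⁅x, y⁆ ∈ Subgroup.center Q) (a b c : Q) :
    ⁅a * b, c⁆ = ⁅a, c⁆ * ⁅b, c⁆ := by
  have h := Subgroup.mem_center_iff.mp (h2 b c) a
  have : ⁅a * b, c⁆ = a * ⁅b, c⁆ * a⁻¹ * ⁅a, c⁆ := by
    simp only [commutatorElement_def]
    group
  rw [this, h]
  have h' := Subgroup.mem_center_iff.mp (h2 b c) ⁅a, c⁆
  rw [h']
  group

theorem comm_mul_right (h2 : ∀ x y : Q, ⁅x, y⁆ ∈ Subgroup.center Q) (a b c : Q) :
    ⁅a, b * c⁆ = ⁅a, b⁆ * ⁅a, c⁆ := by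
  rw [← commutatorElement_inv, comm_mul_left h2, mul_inv_rev, commutatorElement_inv,
    commutatorElement_inv]
  exact Subgroup.mem_center_iff.mp (h2 a b) _

theorem comm_pow_left (h2 : ∀ x y : Q, ⁅x, y⁆ ∈ Subgroup.center Q) (a c : Q) (m : ℕ) :
    ⁅a ^ m, c⁆ = ⁅a, c⁆ ^ m := by
  induction m with
  | zero => simp
  | succ m ih => rw [pow_succ, comm_mul_left h2, ih, pow_succ]

/-- A finitely generated group of class at most two in which every nontrivial normal subgroup
contains a given central element `z ≠ 1` is finite. -/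
theorem finite_of_min [Group.FG Q] (h2 : ∀ x y : Q, ⁅x, y⁆ ∈ Subgroup.center Q) (z : Q)
    (hzc : z ∈ Subgroup.center Q) (hz : z ≠ 1)
    (h : ∀ S : Subgroup Q, S.Normal → S ≠ ⊥ → z ∈ S) : Finite Q := by
  let _ : CommGroup (Subgroup.center Q) :=
    { (Subgroup.center Q).toGroup with
      mul_comm := fun a b => Subtype.ext (Subgroup.mem_center_iff.mp b.2 a) }
  have hmin : ∀ S : Subgroup (Subgroup.center Q), S ≠ ⊥ → (⟨z, hzc⟩ : Subgroup.center Q) ∈ S := by
    intro S hS
    have hn : (S.map (Subgroup.center Q).subtype).Normal := by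
      constructor
      rintro _ ⟨s, hs, rfl⟩ g
      have : g * (Subgroup.center Q).subtype s * g⁻¹ = (Subgroup.center Q).subtype s := by
        have h1 := Subgroup.mem_center_iff.mp s.2 g
        rw [Subgroup.coe_subtype, h1]
        group
      rw [this]
      exact ⟨s, hs, rfl⟩
    obtain ⟨s, hs, hs'⟩ := h _ hn (by
      intro h0
      apply hS
      rw [Subgroup.map_eq_bot_iff] at h0
      rw [eq_bot_iff]
      intro x hx
      have := h0 hx
      rw [Subgroup.ker_subtype] at this
      exact this)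
    have : s = ⟨z, hzc⟩ := Subtype.ext hs'
    rwa [← this]
  have hz' : (⟨z, hzc⟩ : Subgroup.center Q) ≠ 1 := by
    intro h0
    exact hz (congrArg Subtype.val h0)
  have htor : ∀ y : Subgroup.center Q, IsOfFinOrder y := fun y =>
    torsion_of_min (Z := Subgroup.center Q) ⟨z, hzc⟩ hz' hmin y
  obtain ⟨X, hX⟩ := (Group.FG.out : (⊤ : Subgroup Q).FG)
  -- a common exponent for the commutators of the generators
  obtain ⟨m, hm, hmX⟩ : ∃ m : ℕ, 0 < m ∧ ∀ x ∈ X, ∀ y ∈ X, ⁅x, y⁆ ^ m = 1 := by
    classical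
    have hord : ∀ x y : Q, 0 < orderOf ⁅x, y⁆ := by
      intro x y
      have h1 := htor ⟨⁅x, y⁆, h2 x y⟩
      have h3 : IsOfFinOrder ⁅x, y⁆ := by
        have := (Subgroup.center Q).subtype.isOfFinOrder h1
        exact this
      exact h3.orderOf_pos
    refine ⟨∏ p ∈ X ×ˢ X, orderOf ⁅p.1, p.2⁆, Finset.prod_pos fun p _ => hord _ _, ?_⟩
    intro x hx y hy
    apply orderOf_dvd_iff_pow_eq_one.mp
    exact Finset.dvd_prod_of_mem (fun p : Q × Q => orderOf ⁅p.1, p.2⁆)
      (Finset.mem_product.mpr ⟨hx, hy⟩ : (x, y) ∈ X ×ˢ X)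
  have hcp : ∀ a b : Q, ⁅a, b⁆ ^ m = 1 := by
    have s1 : ∀ x ∈ X, ∀ a : Q, ⁅a, x⁆ ^ m = 1 := by
      intro x hx
      let S : Subgroup Q :=
        { carrier := {a | ⁅a, x⁆ ^ m = 1}
          one_mem' := by simp
          mul_mem' := by
            intro a b ha hb
            change ⁅a * b, x⁆ ^ m = 1
            have hc : Commute ⁅a, x⁆ ⁅b, x⁆ := Subgroup.mem_center_iff.mp (h2 b x) _
            rw [comm_mul_left h2, hc.mul_pow]
            change ⁅a, x⁆ ^ m = 1 at ha
            change ⁅b, x⁆ ^ m = 1 at hb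
            rw [ha, hb, one_mul]
          inv_mem' := by
            intro a ha
            change ⁅a⁻¹, x⁆ ^ m = 1
            change ⁅a, x⁆ ^ m = 1 at ha
            have h3 : ⁅a⁻¹, x⁆ * ⁅a, x⁆ = 1 := by
              rw [← comm_mul_left h2, inv_mul_cancel, commutatorElement_one_left]
            rw [eq_inv_of_mul_eq_one_left h3, inv_pow, ha, inv_one] }
      have hS : S = ⊤ := by
        rw [eq_top_iff, ← hX, Subgroup.closure_le]
        intro y hy
        exact hmX y hy x hx
      intro a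
      have : a ∈ S := by rw [hS]; trivial
      exact this
    intro a b
    let S : Subgroup Q :=
      { carrier := {b | ⁅a, b⁆ ^ m = 1}
        one_mem' := by simp
        mul_mem' := by
          intro b c hb hc
          change ⁅a, b * c⁆ ^ m = 1
          have hcc : Commute ⁅a, b⁆ ⁅a, c⁆ := Subgroup.mem_center_iff.mp (h2 a c) _
          rw [comm_mul_right h2, hcc.mul_pow]
          change ⁅a, b⁆ ^ m = 1 at hb
          change ⁅a, c⁆ ^ m = 1 at hc
          rw [hb, hc, one_mul]
        inv_mem' := by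
          intro b hb
          change ⁅a, b⁻¹⁆ ^ m = 1
          change ⁅a, b⁆ ^ m = 1 at hb
          have h3 : ⁅a, b⁻¹⁆ * ⁅a, b⁆ = 1 := by
            rw [← comm_mul_right h2, inv_mul_cancel, commutatorElement_one_right]
          rw [eq_inv_of_mul_eq_one_left h3, inv_pow, hb, inv_one] }
    have hS : S = ⊤ := by
      rw [eq_top_iff, ← hX, Subgroup.closure_le]
      intro y hy
      exact s1 y hy a
    have : b ∈ S := by rw [hS]; trivial
    exact this
  have hpow : ∀ a : Q, a ^ m ∈ Subgroup.center Q := by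
    intro a
    rw [Subgroup.mem_center_iff]
    intro b
    have h3 : ⁅a ^ m, b⁆ = 1 := by rw [comm_pow_left h2, hcp]
    exact (commutatorElement_eq_one_iff_mul_comm.mp h3).symm
  -- the quotient by the centre is finite
  let _ : CommGroup (Q ⧸ Subgroup.center Q) :=
    { (inferInstance : Group (Q ⧸ Subgroup.center Q)) with
      mul_comm := by
        intro a b
        obtain ⟨a, rfl⟩ := QuotientGroup.mk'_surjective _ a
        obtain ⟨b, rfl⟩ := QuotientGroup.mk'_surjective _ b
        have h3 : QuotientGroup.mk' (Subgroup.center Q) ⁅a, b⁆ = 1 := by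
          rw [← MonoidHom.mem_ker, QuotientGroup.ker_mk']
          exact h2 a b
        rw [map_commutatorElement] at h3
        exact commutatorElement_eq_one_iff_mul_comm.mp h3 }
  have hfin : Finite (Q ⧸ Subgroup.center Q) := by
    apply CommGroup.finite_of_fg_isMulTorsion
    intro a
    obtain ⟨a, rfl⟩ := QuotientGroup.mk'_surjective _ a
    refine isOfFinOrder_iff_pow_eq_one.mpr ⟨m, hm, ?_⟩
    rw [← map_pow, ← MonoidHom.mem_ker, QuotientGroup.ker_mk']
    exact hpow a
  have hfi : (Subgroup.center Q).FiniteIndex := Subgroup.finiteIndex_of_finite_quotient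
  have hZfg : Group.FG (Subgroup.center Q) := Subgroup.fg_of_index_ne_zero _
  have hZfin : Finite (Subgroup.center Q) := by
    apply CommGroup.finite_of_fg_isMulTorsion
    exact fun y => htor y
  exact Finite.of_equiv _ (Subgroup.groupEquivQuotientProdSubgroup (s := Subgroup.center Q)).symm

/-- Central elements of finitely generated groups of class at most two are separated from `1` by
finite quotients. -/
theorem two_rf [Group.FG Q] (h2 : ∀ x y : Q, ⁅x, y⁆ ∈ Subgroup.center Q) (z : Q)
    (hzc : z ∈ Subgroup.center Q) (hz : z ≠ 1) :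
    ∃ M : Subgroup Q, M.Normal ∧ z ∉ M ∧ Finite (Q ⧸ M) := by
  have hzorn : ∃ M : Subgroup Q, Maximal (fun M : Subgroup Q => M.Normal ∧ z ∉ M) M := by
    apply zorn_le₀
    intro c hc hchain
    by_cases hne : c.Nonempty
    · refine ⟨sSup c, ⟨?_, ?_⟩, fun M hM => le_sSup hM⟩
      · constructor
        intro x hx g
        rw [Subgroup.mem_sSup_of_directedOn hne hchain.directedOn] at hx ⊢
        obtain ⟨M, hM, hxM⟩ := hx
        exact ⟨M, hM, (hc hM).1.conj_mem x hxM g⟩
      · rw [Subgroup.mem_sSup_of_directedOn hne hchain.directedOn]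
        rintro ⟨M, hM, hzM⟩
        exact (hc hM).2 hzM
    · rw [Set.not_nonempty_iff_eq_empty] at hne
      subst hne
      exact ⟨⊥, ⟨inferInstance, by rwa [Subgroup.mem_bot]⟩, by simp⟩
  obtain ⟨M, ⟨hMn, hzM⟩, hmax⟩ := hzorn
  refine ⟨M, hMn, hzM, ?_⟩
  apply finite_of_min (Q := Q ⧸ M) (z := QuotientGroup.mk' M z)
  · intro x y
    obtain ⟨x, rfl⟩ := QuotientGroup.mk'_surjective _ x
    obtain ⟨y, rfl⟩ := QuotientGroup.mk'_surjective _ y
    rw [← map_commutatorElement, Subgroup.mem_center_iff]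
    intro g
    obtain ⟨g, rfl⟩ := QuotientGroup.mk'_surjective _ g
    rw [← map_mul, ← map_mul, Subgroup.mem_center_iff.mp (h2 x y) g]
  · rw [Subgroup.mem_center_iff]
    intro g
    obtain ⟨g, rfl⟩ := QuotientGroup.mk'_surjective _ g
    rw [← map_mul, ← map_mul, Subgroup.mem_center_iff.mp hzc g]
  · intro h0
    rw [← MonoidHom.mem_ker, QuotientGroup.ker_mk'] at h0
    exact hzM h0
  · intro S hS hS'
    by_contra hcon
    have h1 : (S.comap (QuotientGroup.mk' M)).Normal ∧ z ∉ S.comap (QuotientGroup.mk' M) :=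
      ⟨inferInstance, hcon⟩
    have h3 : M ≤ S.comap (QuotientGroup.mk' M) := by
      intro x hx
      rw [Subgroup.mem_comap]
      have : QuotientGroup.mk' M x = 1 := by
        rw [← MonoidHom.mem_ker, QuotientGroup.ker_mk']
        exact hx
      rw [this]
      exact S.one_mem
    have h4 := hmax h1 h3
    apply hS'
    rw [eq_bot_iff]
    intro x hx
    obtain ⟨x, rfl⟩ := QuotientGroup.mk'_surjective _ x
    have h5 : x ∈ M := h4 hx
    rw [Subgroup.mem_bot, ← MonoidHom.mem_ker, QuotientGroup.ker_mk']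
    exact h5

end Min

section Rel

variable {G : Type u} [Group G] {n : ℕ}

theorem rel_map {G' : Type v} [Group G'] (f : G →* G') (w : Fin n → WG G n)
    (l : List (WG G n × G)) (hmem : pc Coprod.inl l ∈ Subgroup.normalClosure (Set.range w)) :
    pc Coprod.inl (l.map (fun x => (wmap n f x.1, f x.2)))
      ∈ Subgroup.normalClosure (Set.range fun j => wmap n f (w j)) := by
  rw [← pc_map (Coprod.inl : G →* WG G n) (Coprod.inl : G' →* _) (wmap n f) f (fun _ => rfl)]
  have h2 : (Subgroup.normalClosure (Set.range w)).map (wmap n f)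
      ≤ Subgroup.normalClosure (Set.range fun j => wmap n f (w j)) := by
    refine le_trans (Subgroup.map_normalClosure_le _ _) ?_
    rw [← Set.range_comp]
    rfl
  exact h2 ⟨_, hmem, rfl⟩

theorem det_map {G' : Type v} [Group G'] (f : G →* G') (w : Fin n → WG G n)
    (hdet : (Matrix.of fun i j => Multiplicative.toAdd (expo G n i (w j))).det ≠ 0) :
    (Matrix.of fun i j => Multiplicative.toAdd (expo G' n i (wmap n f (w j)))).det ≠ 0 := by
  have : (Matrix.of fun i j => Multiplicative.toAdd (expo G' n i (wmap n f (w j))))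
      = (Matrix.of fun i j => Multiplicative.toAdd (expo G n i (w j))) := by
    ext i j
    simp only [Matrix.of_apply]
    rw [wmap_expo]
  rw [this]
  exact hdet

/-- Adding a commutator with an entry of the list, when this commutator is central. -/
theorem PX_comm {L : List G} {a x u : G} (ha : a ∈ L) (hx : ⁅x, a⁆ ∈ Subgroup.center G)
    (h : PX L u) : PX L (⁅x, a⁆ * u) := by
  induction L generalizing u with
  | nil => simp at ha
  | cons b L ih =>
    obtain ⟨c, y, hy, rfl⟩ := PX_cons.mp h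
    rcases List.mem_cons.mp ha with rfl | ha
    · refine PX_cons.mpr ⟨c * x, y, hy, ?_⟩
      have h1 := Subgroup.mem_center_iff.mp hx c
      have h3 : c * x * a * (c * x)⁻¹ = c * ⁅x, a⁆ * a * c⁻¹ := by
        simp only [commutatorElement_def]
        group
      rw [h3, h1]
      group
    · refine PX_cons.mpr ⟨c, ⁅x, a⁆ * y, ih ha hy, ?_⟩
      have h1 := Subgroup.mem_center_iff.mp hx (c * b * c⁻¹)
      rw [← mul_assoc, ← h1]
      group

/-- The subgroup generated by the commutators with the entries of the list. -/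
def LL (L : List G) : Subgroup G := Subgroup.closure {c | ∃ a ∈ L, ∃ x : G, c = ⁅x, a⁆}

theorem LL_le_center {L : List G} (hL : ∀ a ∈ L, ∀ x : G, ⁅x, a⁆ ∈ Subgroup.center G) :
    LL L ≤ Subgroup.center G := by
  rw [LL, Subgroup.closure_le]
  rintro _ ⟨a, ha, x, rfl⟩
  exact hL a ha x

theorem LL_normal {L : List G} (hL : ∀ a ∈ L, ∀ x : G, ⁅x, a⁆ ∈ Subgroup.center G) :
    (LL L).Normal := by
  constructor
  intro z hz g
  have := Subgroup.mem_center_iff.mp (LL_le_center hL hz) g
  rw [this]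
  simpa using hz

/-- The covering property. -/
theorem PX_LL {L : List G} (hL : ∀ a ∈ L, ∀ x : G, ⁅x, a⁆ ∈ Subgroup.center G) {z u : G}
    (hz : z ∈ LL L) (h : PX L u) : PX L (z * u) := by
  let S : Subgroup G :=
    { carrier := {z | (∀ u, PX L u → PX L (z * u)) ∧ (∀ u, PX L u → PX L (z⁻¹ * u))}
      one_mem' := by
        constructor <;> intro u hu <;> simpa using hu
      mul_mem' := by
        rintro z z' ⟨h1, h2⟩ ⟨h3, h4⟩
        refine ⟨fun u hu => ?_, fun u hu => ?_⟩
        · rw [mul_assoc]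
          exact h1 _ (h3 _ hu)
        · rw [mul_inv_rev, mul_assoc]
          exact h4 _ (h2 _ hu)
      inv_mem' := by
        rintro z ⟨h1, h2⟩
        refine ⟨h2, fun u hu => ?_⟩
        rw [inv_inv]
        exact h1 u hu }
  have hle : LL L ≤ S := by
    rw [LL, Subgroup.closure_le]
    rintro _ ⟨a, ha, x, rfl⟩
    refine ⟨fun u hu => PX_comm ha (hL a ha x) hu, fun u hu => ?_⟩
    have h1 : ⁅x, a⁆⁻¹ = ⁅x⁻¹, a⁆ := by
      have h2 := Subgroup.mem_center_iff.mp (Subgroup.inv_mem _ (hL a ha x)) x⁻¹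
      have h3 : ⁅x⁻¹, a⁆ = x⁻¹ * ⁅x, a⁆⁻¹ * x := by
        simp only [commutatorElement_def]
        group
      rw [h3, h2]
      group
    rw [h1]
    exact PX_comm ha (hL a ha x⁻¹) hu
  exact (hle hz).1 u h

/-- Groups of nilpotency class at most two satisfy Q1. -/
theorem two_QK (h2 : ∀ x y : G, ⁅x, y⁆ ∈ Subgroup.center G) (n : ℕ) : QK G n Set.univ := by
  intro w hdet l _ hmem
  have hL : ∀ a ∈ l.map Prod.snd, ∀ x : G, ⁅x, a⁆ ∈ Subgroup.center G := fun a _ x => h2 x a
  have hn := LL_normal hL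
  suffices h : (l.map Prod.snd).prod ∈ LL (l.map Prod.snd) by
    have h1 := PX_LL hL ((LL _).inv_mem h) (PX_prod (l.map Prod.snd))
    rw [inv_mul_cancel] at h1
    exact h1
  by_contra hcon
  set N := LL (l.map Prod.snd) with hN
  let π : G →* G ⧸ N := QuotientGroup.mk' N
  have h1 := rel_map π w l hmem
  have hd1 := det_map π w hdet
  obtain ⟨Γ, hΓ, w₀, l₀, hw₀, hl₀, hmem₀⟩ := fg_reduction _ _ h1
  have hΓfg : Group.FG Γ := (Group.fg_iff_subgroup_fg Γ).mpr hΓ
  have hd0 : (Matrix.of fun i j => Multiplicative.toAdd (expo Γ n i (w₀ j))).det ≠ 0 := by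
    have : (Matrix.of fun i j => Multiplicative.toAdd (expo Γ n i (w₀ j)))
        = (Matrix.of fun i j => Multiplicative.toAdd (expo (G ⧸ N) n i (wmap n π (w j)))) := by
      ext i j
      simp only [Matrix.of_apply]
      rw [← hw₀, wmap_expo]
    rw [this]
    exact hd1
  have hQ2 : ∀ x y : G ⧸ N, ⁅x, y⁆ ∈ Subgroup.center (G ⧸ N) := by
    intro x y
    obtain ⟨x, rfl⟩ := QuotientGroup.mk'_surjective _ x
    obtain ⟨y, rfl⟩ := QuotientGroup.mk'_surjective _ y
    rw [← map_commutatorElement, Subgroup.mem_center_iff]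
    intro g
    obtain ⟨g, rfl⟩ := QuotientGroup.mk'_surjective _ g
    rw [← map_mul, ← map_mul, Subgroup.mem_center_iff.mp (h2 x y) g]
  have hΓ2 : ∀ x y : Γ, ⁅x, y⁆ ∈ Subgroup.center Γ := by
    intro x y
    rw [Subgroup.mem_center_iff]
    intro g
    apply Subtype.ext
    exact Subgroup.mem_center_iff.mp (hQ2 x y) g
  have hcen : ∀ y ∈ l₀, y.2 ∈ Subgroup.center Γ := by
    intro y hy
    rw [Subgroup.mem_center_iff]
    intro g
    apply Subtype.ext
    have h3 : (y.2 : G ⧸ N) ∈ (l.map (fun x => (wmap n π x.1, π x.2))).map Prod.snd := by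
      rw [← hl₀, List.map_map]
      exact List.mem_map.mpr ⟨y, hy, rfl⟩
    rw [List.map_map, List.mem_map] at h3
    obtain ⟨x, hx, hxy⟩ := h3
    change (g : G ⧸ N) * (y.2 : G ⧸ N) = (y.2 : G ⧸ N) * (g : G ⧸ N)
    rw [← hxy]
    obtain ⟨g', hg'⟩ := QuotientGroup.mk'_surjective N (g : G ⧸ N)
    rw [← hg']
    change QuotientGroup.mk' N g' * QuotientGroup.mk' N x.2
      = QuotientGroup.mk' N x.2 * QuotientGroup.mk' N g'
    rw [← commutatorElement_eq_one_iff_mul_comm, ← map_commutatorElement, ← MonoidHom.mem_ker,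
      QuotientGroup.ker_mk']
    exact Subgroup.subset_closure ⟨x.2, List.mem_map_of_mem hx, g', rfl⟩
  set z := (l₀.map Prod.snd).prod with hz
  have hzc : z ∈ Subgroup.center Γ := by
    apply Subgroup.list_prod_mem
    intro x hx
    rw [List.mem_map] at hx
    obtain ⟨y, hy, rfl⟩ := hx
    exact hcen y hy
  have hz1 : z ≠ 1 := by
    intro h0
    apply hcon
    have h3 : (z : G ⧸ N) = 1 := by rw [h0]; rfl
    have h4 : (z : G ⧸ N) = π (l.map Prod.snd).prod := by
      have h5 : (z : G ⧸ N) = ((l₀.map Prod.snd).map Γ.subtype).prod := by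
        rw [hz]
        exact map_list_prod Γ.subtype _
      rw [h5, map_list_prod, List.map_map, List.map_map]
      have h6 := congrArg (List.map Prod.snd) hl₀
      rw [List.map_map, List.map_map] at h6
      exact congrArg List.prod h6
    rw [h4] at h3
    rw [← QuotientGroup.ker_mk' N]
    exact h3
  obtain ⟨M, hMn, hzM, hfin⟩ := two_rf hΓ2 z hzc hz1
  have h7 := rel_map (QuotientGroup.mk' M) w₀ l₀ hmem₀
  have h8 := fin_central _ (det_map (QuotientGroup.mk' M) w₀ hd0) _ (by
    intro y hy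
    rw [List.mem_map] at hy
    obtain ⟨x, hx, rfl⟩ := hy
    rw [Subgroup.mem_center_iff]
    intro g
    obtain ⟨g, rfl⟩ := QuotientGroup.mk'_surjective _ g
    change QuotientGroup.mk' M g * QuotientGroup.mk' M x.2
      = QuotientGroup.mk' M x.2 * QuotientGroup.mk' M g
    rw [← map_mul, ← map_mul, Subgroup.mem_center_iff.mp (hcen x hx) g]) h7
  apply hzM
  rw [← QuotientGroup.ker_mk' M, MonoidHom.mem_ker, hz, map_list_prod, List.map_map]
  rw [List.map_map] at h8
  exact h8

end Rel

end Pool.Agent.H76.Ker
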